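import Pool.Agent.H4.KJ.J1A

/-!
# LEMMA J, row J5: entropy tools

Densities, fresh points of a cell, Gibbs inequality for a sparse set, counts.
-/

set_option autoImplicit false

namespace Pool.KJ

open Finset Real
open Pool.Agent.H49.Ent Pool.Agent.H32.Dense Pool.STK

section general

variable {V Ω S T U : Type} [Fintype V] [Fintype Ω]

/-- The conditional entropy under a law with bounded density. -/
theorem CH_dens {p r : Ω → ℝ} (hp : IsLaw p) (hr : IsLaw r) {M : ℝ}
    (h : ∀ ω, r ω ≤ M * p ω) (X : Ω → S) (W : Ω → T) : CH r X W ≤ M * CH p X W := by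
  classical
  have hp0 := hp.nonneg
  have hr0 := hr.nonneg
  have hpos : ∀ ω, 0 < r ω → 0 < p ω := by
    intro ω hω
    rcases (hp0 ω).eq_or_lt with h0 | h0
    · have := h ω
      rw [← h0, mul_zero] at this
      linarith
    · exact h0
  have h1 := CH_le_cross hr0 hr.sum_one X W
    (fun w x => law p (fun ω => (X ω, W ω)) (x, w) / law p W w)
    (fun ω hω => div_pos (law_pos hp0 (fun ω => (X ω, W ω)) (hpos ω hω))
      (law_pos hp0 W (hpos ω hω)))
    (fun w x => div_nonneg (law_nonneg hp0 _ _) (law_nonneg hp0 _ _))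
    (by
      intro ω hω F
      have hl := law_pos hp0 W (hpos ω hω)
      rw [← Finset.sum_div, div_le_one hl]
      unfold law
      rw [Finset.sum_comm]
      refine Finset.sum_le_sum fun ω' _ => ?_
      by_cases hW : W ω' = W ω
      · rw [if_pos hW]
        simp only [Prod.mk.injEq, hW, and_true]
        rw [Finset.sum_ite_eq]
        split_ifs
        · exact le_rfl
        · exact hp0 ω'
      · rw [if_neg hW]
        refine le_of_eq (Finset.sum_eq_zero fun x _ => ?_)
        rw [if_neg fun h => hW (Prod.ext_iff.mp h).2])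
  refine h1.trans ?_
  rw [CH_eq_neg_sum hp0]
  unfold Ex
  rw [Finset.mul_sum]
  refine Finset.sum_le_sum fun ω _ => ?_
  rcases (hp0 ω).eq_or_lt with h0 | h0
  · have h2 : r ω = 0 := by
      have := h ω
      rw [← h0, mul_zero] at this
      exact le_antisymm this (hr0 ω)
    rw [h2, ← h0, zero_mul, mul_zero]
  · have h2 : 0 ≤ -Real.log (law p (fun ω => (X ω, W ω)) (X ω, W ω) / law p W (W ω)) := by
      rw [neg_nonneg]
      refine Real.log_nonpos (div_nonneg (law_nonneg hp0 _ _) (law_nonneg hp0 _ _)) ?_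
      rw [div_le_one (law_pos hp0 W h0)]
      exact law_mono_of_det hp0 (fun _ _ _ _ e => (Prod.ext_iff.mp e).2) h0
    rw [← mul_assoc]
    exact mul_le_mul_of_nonneg_right (h ω) h2

/-- Bounded number of values. -/
theorem CH_sup {p : Ω → ℝ} (hp : IsLaw p) (X : Ω → S) (W : Ω → T) {h : ℝ}
    (H : ∀ ω, 0 < p ω → ∃ s : Finset S, (s.card : ℝ) ≤ Real.exp h ∧ ∀ ω', 0 < p ω' →
      W ω' = W ω → X ω' ∈ s) : CH p X W ≤ h := by
  classical
  have hex : ∀ w : T, (∃ ω, 0 < p ω ∧ W ω = w) → ∃ s : Finset S, (s.card : ℝ) ≤ Real.exp h ∧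
      ∀ ω', 0 < p ω' → W ω' = w → X ω' ∈ s := by
    rintro w ⟨ω, hω, rfl⟩
    exact H ω hω
  set F : T → Finset S := fun w => if hw : ∃ ω, 0 < p ω ∧ W ω = w then (hex w hw).choose else ∅
    with hF
  have hF1 : ∀ ω, 0 < p ω → ((F (W ω)).card : ℝ) ≤ Real.exp h ∧ X ω ∈ F (W ω) := by
    intro ω hω
    have hw : ∃ ω', 0 < p ω' ∧ W ω' = W ω := ⟨ω, hω, rfl⟩
    have e : F (W ω) = (hex _ hw).choose := by
      simp only [hF]
      rw [dif_pos hw]
    rw [e]
    exact ⟨(hex _ hw).choose_spec.1, (hex _ hw).choose_spec.2 ω hω rfl⟩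
  refine (CH_le_card hp.nonneg hp.sum_one X W F fun ω hω => (hF1 ω hω).2).trans ?_
  refine (Ex_mono hp.nonneg (g := fun _ => h) fun ω hω => ?_).trans
    (le_of_eq (Ex_const hp.sum_one h))
  have h1 : (0 : ℝ) < (F (W ω)).card := by
    exact_mod_cast Finset.card_pos.2 ⟨_, (hF1 ω hω).2⟩
  rw [← Real.log_exp h]
  exact Real.log_le_log h1 (hF1 ω hω).1

/-- The entropy of a bit. -/
theorem CH_dec_le {p : Ω → ℝ} (hp : IsLaw p) (f : Ω → Bool) (W : Ω → T) :
    CH p f W ≤ Real.log 2 := by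
  refine (CH_le_card hp.nonneg hp.sum_one _ _ (fun _ => Finset.univ)
    (fun ω _ => Finset.mem_univ _)).trans ?_
  rw [Ex_const hp.sum_one]
  simp

open Classical in
/-- **Gibbs inequality**: a variable which is nearly full is rarely in a sparse set. -/
theorem gib {p : Ω → ℝ} (hp : IsLaw p) (Y : Ω → S) (W : Ω → T) (F A : T → Finset S) (lf : ℝ)
    (hF : ∀ ω, 0 < p ω → Y ω ∈ F (W ω))
    (hA : ∀ ω, 0 < p ω → ((A (W ω)).card : ℝ) ≤ Real.exp (-lf) * (F (W ω)).card) :
    lf * (∑ ω, if Y ω ∈ A (W ω) then p ω else 0) ≤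
      Ex p (fun ω => Real.log ((F (W ω)).card)) - CH p Y W + Real.log 2 := by
  have hp0 := hp.nonneg
  have h1 := CH_le_add hp0 Y (fun ω => decide (Y ω ∈ A (W ω))) W
  have h2 := CH_dec_le hp (fun ω => decide (Y ω ∈ A (W ω))) W
  have h3 := CH_le_card hp0 hp.sum_one Y (fun ω => (decide (Y ω ∈ A (W ω)), W ω))
    (fun w => if w.1 = true then A w.2 else F w.2) (by
      intro ω hω
      by_cases h : Y ω ∈ A (W ω)
      · simp only [h, decide_true, if_true]
      · simp only [h, decide_false, Bool.false_eq_true, if_false]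
        exact hF ω hω)
  have h4 : Ex p (fun ω => Real.log (((if (decide (Y ω ∈ A (W ω))) = true then A (W ω) else
      F (W ω)).card : ℕ) : ℝ)) ≤
      Ex p (fun ω => Real.log ((F (W ω)).card)) -
        lf * (∑ ω, if Y ω ∈ A (W ω) then p ω else 0) := by
    have e : lf * (∑ ω, if Y ω ∈ A (W ω) then p ω else 0) =
        ∑ ω, p ω * (if Y ω ∈ A (W ω) then lf else 0) := by
      rw [Finset.mul_sum]
      refine Finset.sum_congr rfl fun ω _ => ?_
      split_ifs
      · ring
      · ring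
    rw [e]
    unfold Ex
    rw [← Finset.sum_sub_distrib]
    refine Finset.sum_le_sum fun ω _ => ?_
    rw [← mul_sub]
    rcases (hp0 ω).eq_or_lt with h0 | h0
    · rw [← h0, zero_mul, zero_mul]
    refine mul_le_mul_of_nonneg_left ?_ h0.le
    by_cases h : Y ω ∈ A (W ω)
    · simp only [h, decide_true, if_true]
      have c1 : (0 : ℝ) < (A (W ω)).card := by exact_mod_cast Finset.card_pos.2 ⟨_, h⟩
      have c2 : (0 : ℝ) < (F (W ω)).card := by exact_mod_cast Finset.card_pos.2 ⟨_, hF ω h0⟩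
      have c3 := Real.log_le_log c1 (hA ω h0)
      rw [Real.log_mul (Real.exp_pos _).ne' c2.ne', Real.log_exp] at c3
      linarith
    · simp only [h, decide_false, Bool.false_eq_true, if_false, sub_zero]
      exact le_rfl
  have h5 := h3.trans h4
  linarith

open Classical in
/-- A short list outside an event. -/
theorem CH_list {p : Ω → ℝ} (hp : IsLaw p) (X : Ω → S) (W : Ω → T) (A : Ω → Prop)
    (F G : T → Finset S) {c₁ c₂ : ℝ} (hc₁ : 0 ≤ c₁)
    (hF : ∀ ω, 0 < p ω → ¬ A ω → X ω ∈ F (W ω) ∧ ((F (W ω)).card : ℝ) ≤ Real.exp c₁)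
    (hG : ∀ ω, 0 < p ω → A ω → X ω ∈ G (W ω) ∧ ((G (W ω)).card : ℝ) ≤ Real.exp c₂) :
    CH p X W ≤ Real.log 2 + c₁ + (∑ ω, if A ω then p ω else 0) * c₂ := by
  have hp0 := hp.nonneg
  have h1 := CH_le_add hp0 X (fun ω => decide (A ω)) W
  have h2 := CH_dec_le hp (fun ω => decide (A ω)) W
  have h3 := CH_le_card hp0 hp.sum_one X (fun ω => (decide (A ω), W ω))
    (fun w => if w.1 = true then G w.2 else F w.2) (by
      intro ω hω
      by_cases h : A ω
      · simp only [h, decide_true, if_true]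
        exact (hG ω hω h).1
      · simp only [h, decide_false, Bool.false_eq_true, if_false]
        exact (hF ω hω h).1)
  have h4 : Ex p (fun ω => Real.log (((if (decide (A ω)) = true then G (W ω) else
      F (W ω)).card : ℕ) : ℝ)) ≤ c₁ + (∑ ω, if A ω then p ω else 0) * c₂ := by
    have e : c₁ + (∑ ω, if A ω then p ω else 0) * c₂ =
        ∑ ω, p ω * (c₁ + if A ω then c₂ else 0) := by
      have e1 : ∀ ω ∈ (Finset.univ : Finset Ω), p ω * (c₁ + if A ω then c₂ else 0) =
          p ω * c₁ + (if A ω then p ω else 0) * c₂ := by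
        intro ω _
        split_ifs <;> ring
      rw [Finset.sum_congr rfl e1, Finset.sum_add_distrib, ← Finset.sum_mul, ← Finset.sum_mul,
        hp.sum_one, one_mul]
    rw [e]
    unfold Ex
    refine Finset.sum_le_sum fun ω _ => ?_
    rcases (hp0 ω).eq_or_lt with h0 | h0
    · rw [← h0, zero_mul, zero_mul]
    refine mul_le_mul_of_nonneg_left ?_ h0.le
    by_cases h : A ω
    · simp only [h, decide_true, if_true]
      have c1 : (0 : ℝ) < (G (W ω)).card := by
        exact_mod_cast Finset.card_pos.2 ⟨_, (hG ω h0 h).1⟩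
      have c3 := Real.log_le_log c1 (hG ω h0 h).2
      rw [Real.log_exp] at c3
      linarith
    · simp only [h, decide_false, Bool.false_eq_true, if_false, add_zero]
      have c1 : (0 : ℝ) < (F (W ω)).card := by
        exact_mod_cast Finset.card_pos.2 ⟨_, (hF ω h0 h).1⟩
      have c3 := Real.log_le_log c1 (hF ω h0 h).2
      rwa [Real.log_exp] at c3
  have h5 := h3.trans h4
  linarith

/-- `CH` as a mean of entropies. -/
theorem Ex_H_cond {p : Ω → ℝ} (hp : ∀ ω, 0 ≤ p ω) (Y : Ω → S) (κ : Ω → T) :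
    Ex p (fun ω => H (cond p κ (κ ω)) Y) = CH p Y κ := by
  classical
  unfold Ex
  rw [sum_mul_eq_sum_image p κ (fun z => H (cond p κ z) Y), CH_eq_sum hp]

end general

section fresh

variable {V Ω ι S T U : Type} [Fintype V] [Fintype Ω]

/-- The law of a pair `(v, ω)` where `ω` is a fresh point with `κ (t v) ω = K v`. -/
noncomputable def frs (q : V → ℝ) (p : Ω → ℝ) (κ : ι → Ω → T) (t : V → ι) (K : V → T) :
    V × Ω → ℝ := fun w => q w.1 * cond p (κ (t w.1)) (K w.1) w.2

variable {q q' : V → ℝ} {p : Ω → ℝ} {κ : ι → Ω → T} {t : V → ι} {K : V → T} {pr : V → Ω}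

omit [Fintype V] in
theorem frs_nonneg (hq : ∀ v, 0 ≤ q v) (hp : ∀ ω, 0 ≤ p ω) (w : V × Ω) :
    0 ≤ frs q p κ t K w := mul_nonneg (hq _) (cond_nonneg hp _ _ _)

omit [Fintype V] in
theorem frs_pos (hq : ∀ v, 0 ≤ q v) (hp : ∀ ω, 0 ≤ p ω) {w : V × Ω}
    (h : 0 < frs q p κ t K w) : 0 < q w.1 ∧ 0 < p w.2 ∧ κ (t w.1) w.2 = K w.1 := by
  have h1 : 0 < q w.1 := by
    rcases (hq w.1).eq_or_lt with h0 | h0
    · unfold frs at h
      rw [← h0, zero_mul] at h
      exact absurd h (lt_irrefl _)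
    · exact h0
  have h2 : 0 < cond p (κ (t w.1)) (K w.1) w.2 := by
    unfold frs at h
    exact pos_of_mul_pos_right h h1.le
  have h3 := (cond_pos_iff hp _ _ _).mp h2
  exact ⟨h1, h3.1, h3.2⟩

theorem frs_marg (hq : ∀ v, 0 ≤ q v) (hl : ∀ v, 0 < q v → 0 < law p (κ (t v)) (K v)) :
    Marg (frs q p κ t K) q (fun w => w.1) := by
  classical
  intro v
  rw [Fintype.sum_prod_type, Finset.sum_eq_single v]
  · simp only [if_true]
    unfold frs
    change ∑ ω, q v * cond p (κ (t v)) (K v) ω = q v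
    rw [← Finset.mul_sum]
    rcases (hq v).eq_or_lt with h0 | h0
    · rw [← h0, zero_mul]
    · rw [sum_cond p _ (hl v h0).ne', mul_one]
  · intro b _ hb
    simp [hb]
  · intro h
    exact absurd (Finset.mem_univ _) h

theorem frs_law (hq : IsLaw q) (hp : ∀ ω, 0 ≤ p ω)
    (hl : ∀ v, 0 < q v → 0 < law p (κ (t v)) (K v)) : IsLaw (frs q p κ t K) where
  nonneg := frs_nonneg hq.nonneg hp
  sum_one := by
    have h := (frs_marg hq.nonneg hl).sum
    rw [h, hq.sum_one]

/-- The entropy of the fresh point given `v`. -/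
theorem CH_frs (hq : ∀ v, 0 ≤ q v) (hp : ∀ ω, 0 ≤ p ω)
    (hl : ∀ v, 0 < q v → 0 < law p (κ (t v)) (K v)) (Y : Ω → S) :
    CH (frs q p κ t K) (fun w => Y w.2) (fun w => w.1) =
      Ex q (fun v => H (cond p (κ (t v)) (K v)) Y) := by
  classical
  have hr0 : ∀ w, 0 ≤ frs q p κ t K w := frs_nonneg hq hp
  have e1 : ∀ v, law (frs q p κ t K) (fun w => w.1) v = q v := by
    intro v
    have := frs_marg hq hl v
    unfold law
    convert this
  have e2 : ∀ y v, law (frs q p κ t K) (fun w => (Y w.2, w.1)) (y, v) =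
      q v * law (cond p (κ (t v)) (K v)) Y y := by
    intro y v
    unfold law
    rw [Fintype.sum_prod_type, Finset.sum_eq_single v]
    · rw [Finset.mul_sum]
      refine Finset.sum_congr rfl fun ω _ => ?_
      by_cases h : Y ω = y
      · have h' : (fun w : V × Ω => (Y w.2, w.1)) (v, ω) = (y, v) := Prod.ext h rfl
        rw [if_pos h', if_pos h]
        rfl
      · rw [if_neg fun h' => h (Prod.ext_iff.mp h').1, if_neg h, mul_zero]
    · intro b _ hb
      refine Finset.sum_eq_zero fun ω _ => ?_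
      rw [if_neg fun h' => hb (Prod.ext_iff.mp h').2]
    · intro h
      exact absurd (Finset.mem_univ _) h
  rw [CH_eq_neg_sum hr0]
  unfold Ex
  rw [Fintype.sum_prod_type]
  refine Finset.sum_congr rfl fun v _ => ?_
  rcases (hq v).eq_or_lt with h0 | h0
  · rw [← h0, zero_mul]
    refine Finset.sum_eq_zero fun ω _ => ?_
    unfold frs
    rw [← h0, zero_mul, zero_mul]
  · unfold H
    beta_reduce
    rw [← Finset.sum_neg_distrib, Finset.mul_sum]
    refine Finset.sum_congr rfl fun ω _ => ?_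
    simp only [e1, e2]
    rw [mul_div_cancel_left₀ _ h0.ne']
    unfold frs
    ring

/-- The fresh point is nearly full. -/
theorem frs_full (hq : IsLaw q) (hp : IsLaw p) (hm : Marg q' p pr) (hq' : ∀ v, 0 ≤ q' v) {M : ℝ}
    (hM0 : 0 ≤ M) (hM : ∀ v, q v ≤ M * q' v) (hK : ∀ v, 0 < q v → K v = κ (t v) (pr v))
    (Sc : Finset ι) (ht : ∀ v, 0 < q v → t v ∈ Sc) (Y : Ω → S) (l : ι → ℝ) {ef : ℝ}
    (hl1 : ∀ b ∈ Sc, ∀ ω, 0 < p ω → H (cond p (κ b) (κ b ω)) Y ≤ l b)
    (hl2 : ∀ b ∈ Sc, l b - CH p Y (κ b) ≤ ef) :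
    Ex q (fun v => l (t v)) - M * (Sc.card * ef) ≤
      CH (frs q p κ t K) (fun w => Y w.2) (fun w => w.1) := by
  classical
  have hp0 := hp.nonneg
  have hq0 := hq.nonneg
  have hpos : ∀ v, 0 < q v → 0 < q' v := by
    intro v hv
    rcases (hq' v).eq_or_lt with h0 | h0
    · have := hM v
      rw [← h0, mul_zero] at this
      linarith
    · exact h0
  have hppos : ∀ v, 0 < q v → 0 < p (pr v) := fun v hv => hm.pos hq' (hpos v hv)
  have hl : ∀ v, 0 < q v → 0 < law p (κ (t v)) (K v) := by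
    intro v hv
    rw [hK v hv]
    exact law_pos hp0 _ (hppos v hv)
  rw [CH_frs hq0 hp0 hl]
  have h1 : Ex q (fun v => l (t v)) - Ex q (fun v => H (cond p (κ (t v)) (K v)) Y) ≤
      ∑ b ∈ Sc, M * Ex p (fun ω => l b - H (cond p (κ b) (κ b ω)) Y) := by
    rw [← Ex_sub]
    have h2 : ∀ b ∈ Sc, M * Ex p (fun ω => l b - H (cond p (κ b) (κ b ω)) Y) =
        ∑ v, M * q' v * (l b - H (cond p (κ b) (κ b (pr v))) Y) := by
      intro b _
      rw [← hm.ex (fun ω => l b - H (cond p (κ b) (κ b ω)) Y)]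
      unfold Ex
      rw [Finset.mul_sum]
      exact Finset.sum_congr rfl fun v _ => by ring
    rw [Finset.sum_congr rfl h2, Finset.sum_comm]
    unfold Ex
    refine Finset.sum_le_sum fun v _ => ?_
    have h3 : ∀ b ∈ Sc, 0 ≤ M * q' v * (l b - H (cond p (κ b) (κ b (pr v))) Y) := by
      intro b hb
      rcases (hq' v).eq_or_lt with h0 | h0
      · rw [← h0, mul_zero, zero_mul]
      · have := hl1 b hb (pr v) (hm.pos hq' h0)
        exact mul_nonneg (mul_nonneg hM0 h0.le) (by linarith)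
    rcases (hq0 v).eq_or_lt with h0 | h0
    · rw [← h0, zero_mul]
      exact Finset.sum_nonneg h3
    · refine le_trans ?_ (Finset.single_le_sum h3 (ht v h0))
      beta_reduce
      rw [hK v h0]
      refine mul_le_mul_of_nonneg_right (hM v) ?_
      have := hl1 (t v) (ht v h0) (pr v) (hppos v h0)
      linarith
  have h4 : ∑ b ∈ Sc, M * Ex p (fun ω => l b - H (cond p (κ b) (κ b ω)) Y) ≤
      M * (Sc.card * ef) := by
    rw [← Finset.mul_sum]
    refine mul_le_mul_of_nonneg_left ?_ hM0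
    rw [← nsmul_eq_mul]
    refine Finset.sum_le_card_nsmul _ _ _ fun b hb => ?_
    rw [Ex_sub, Ex_const hp.sum_one, Ex_H_cond hp0]
    exact hl2 b hb
  linarith

/-- The density of the law of the fresh point. -/
theorem frs_dens (hq : ∀ v, 0 ≤ q v) (hp : ∀ ω, 0 ≤ p ω) (hm : Marg q' p pr)
    (hq' : ∀ v, 0 ≤ q' v) {M : ℝ}
    (hM0 : 0 ≤ M) (hM : ∀ v, q v ≤ M * q' v) (hK : ∀ v, 0 < q v → K v = κ (t v) (pr v))
    (Sc : Finset ι) (ht : ∀ v, 0 < q v → t v ∈ Sc) (ω : Ω) :
    ∑ v, frs q p κ t K (v, ω) ≤ M * Sc.card * p ω := by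
  classical
  have h1 : ∀ v, frs q p κ t K (v, ω) ≤
      ∑ b ∈ Sc, M * ((if κ b (pr v) = κ b ω then q' v else 0) * (p ω / law p (κ b) (κ b ω))) := by
    intro v
    have h3 : ∀ b ∈ Sc, 0 ≤ M * ((if κ b (pr v) = κ b ω then q' v else 0) *
        (p ω / law p (κ b) (κ b ω))) := by
      intro b _
      refine mul_nonneg hM0 (mul_nonneg ?_ (div_nonneg (hp ω) (law_nonneg hp _ _)))
      split_ifs
      · exact hq' v
      · exact le_rfl
    rcases (hq v).eq_or_lt with h0 | h0
    · unfold frs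
      rw [← h0, zero_mul]
      exact Finset.sum_nonneg h3
    · refine le_trans ?_ (Finset.single_le_sum h3 (ht v h0))
      unfold frs Pool.Agent.H49.Ent.cond
      beta_reduce
      rw [hK v h0]
      by_cases hk : κ (t v) ω = κ (t v) (pr v)
      · rw [if_pos hk, if_pos hk.symm, ← hk, ← mul_assoc]
        exact mul_le_mul_of_nonneg_right (hM v) (div_nonneg (hp ω) (law_nonneg hp _ _))
      · rw [if_neg hk, if_neg (Ne.symm hk), mul_zero, zero_mul, mul_zero]
  refine (Finset.sum_le_sum fun v _ => h1 v).trans ?_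
  rw [Finset.sum_comm]
  have h2 : ∀ b ∈ Sc, ∑ v, M * ((if κ b (pr v) = κ b ω then q' v else 0) *
      (p ω / law p (κ b) (κ b ω))) ≤ M * p ω := by
    intro b _
    rw [← Finset.mul_sum, ← Finset.sum_mul]
    refine mul_le_mul_of_nonneg_left ?_ hM0
    have e : (∑ v, if κ b (pr v) = κ b ω then q' v else 0) = law p (κ b) (κ b ω) := by
      have := hm.law (κ b) (κ b ω)
      rw [← this]
      rfl
    rw [e]
    rcases (hp ω).eq_or_lt with h0 | h0
    · rw [← h0, zero_div, mul_zero]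
    · rw [mul_div_cancel₀ _ (law_pos hp _ h0).ne']
  refine (Finset.sum_le_card_nsmul _ _ _ h2).trans (le_of_eq ?_)
  rw [nsmul_eq_mul]
  ring

/-- The entropies of functions of the fresh point. -/
theorem CH_frs_snd (hq : IsLaw q) (hp : IsLaw p) (hm : Marg q' p pr) (hq' : ∀ v, 0 ≤ q' v)
    {M : ℝ} (hM0 : 0 ≤ M) (hM : ∀ v, q v ≤ M * q' v)
    (hK : ∀ v, 0 < q v → K v = κ (t v) (pr v))
    (Sc : Finset ι) (ht : ∀ v, 0 < q v → t v ∈ Sc) (X : Ω → S) (W : Ω → U) :
    CH (frs q p κ t K) (fun w => X w.2) (fun w => W w.2) ≤ M * Sc.card * CH p X W := by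
  classical
  have hp0 := hp.nonneg
  have hq0 := hq.nonneg
  have hpos : ∀ v, 0 < q v → 0 < q' v := by
    intro v hv
    rcases (hq' v).eq_or_lt with h0 | h0
    · have := hM v
      rw [← h0, mul_zero] at this
      linarith
    · exact h0
  have hl : ∀ v, 0 < q v → 0 < law p (κ (t v)) (K v) := by
    intro v hv
    rw [hK v hv]
    exact law_pos hp0 _ (hm.pos hq' (hpos v hv))
  have hr := frs_law hq hp0 hl
  set r2 : Ω → ℝ := fun ω => ∑ v, frs q p κ t K (v, ω) with hr2
  have hmg : Marg (frs q p κ t K) r2 (fun w => w.2) := by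
    intro ω
    rw [Fintype.sum_prod_type]
    refine Finset.sum_congr rfl fun v _ => ?_
    rw [Finset.sum_eq_single ω]
    · simp
    · intro b _ hb
      simp [hb]
    · intro h
      exact absurd (Finset.mem_univ _) h
  have hl2 : IsLaw r2 :=
    { nonneg := fun ω => Finset.sum_nonneg fun v _ => hr.nonneg _
      sum_one := by rw [← hmg.sum, hr.sum_one] }
  have h1 := hmg.CH X W
  rw [h1]
  exact CH_dens hp hl2 (fun ω => frs_dens hq0 hp0 hm hq' hM0 hM hK Sc ht ω) X W

end fresh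

end Pool.KJ
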