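import Pool.Agent.H72.KJ.Stmts

/-!
# LEMMA J, row J5: pure pieces (statements)
-/

set_option autoImplicit false

namespace Pool.KJ

open Finset Real
open Pool.Agent.H49.Ent Pool.Agent.H32.Dense Pool.STK Pool.KAF Pool.KAL Pool.KST Pool.KS3

/-- **(SLC)** (pure) On a line parallel to a coordinate axis few grid points have a small Taylor
coefficient and a large next one. -/
def SLCStmt : Prop :=
  ∀ n k : ℕ, ∃ C : ℝ, 1 ≤ C ∧ ∀ (h : MvPolynomial (Fin n) ℝ) (L b : ℕ) (β : Fin n →₀ ℕ)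
    (i : Fin n) (A B : ℝ) (u : Fin n → ℕ) (E : Finset ℕ), h.totalDegree ≤ k → b ≤ L → 0 ≤ A →
    0 < B →
    (∀ t ∈ E, |tc b h (fun l => ((Function.update u i t l : ℕ) : ℝ) / 2 ^ L) β| ≤ A ∧
      B ≤ |tc b h (fun l => ((Function.update u i t l : ℕ) : ℝ) / 2 ^ L)
        (β + Finsupp.single i 1)|) →
    (E.card : ℝ) ≤ C * (A / B * 2 ^ (L - b) + 1)

/-- **(DIF)** (pure) The difference of the values of one polynomial on two graphs which agree up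
to `2 ^ (-P₀)`. -/
def DIFStmt : Prop :=
  ∀ n D : ℕ, ∃ C : ℝ, 1 ≤ C ∧ ∀ (P : MvPolynomial (Option (Fin n)) ℝ)
    (G G' : MvPolynomial (Fin n) ℝ) (c : Fin n → ℝ) (s : ℝ) (R' pp P₀ : ℕ),
    P.totalDegree ≤ D → 0 ≤ s → cube c s ⊆ cube (fun _ => 0) 1 → R' + pp ≤ P₀ →
    (∀ y ∈ cube (fun _ => 0) 1,
      |MvPolynomial.eval y G - MvPolynomial.eval y G'| ≤ 1 / 2 ^ P₀) →
    Ft D R' (fun j => cs c s (gr G' (dN j P))) →
    cs c s (gr G P - gr G' P) ≤ C / 2 ^ pp * cs c s (gr G' P)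

/-- **(RTS)** (pure) If at the point `y` the polynomial `Q` is small against its `j`-th passive
derivative, then the passive coordinate up to the row `R` is in a short list which depends on `Q`
and on the base coordinates only. -/
def RTSStmt : Prop :=
  ∀ (n D : ℕ) (C₀ : ℝ), 1 ≤ C₀ → ∃ C : ℝ, 1 ≤ C ∧ ∀ (a L R : ℕ) (θ : ℝ), R ≤ L → 0 < θ → θ ≤ 1 →
    ∃ S : MvPolynomial (Option (Fin n)) ℝ → (Fin n → ℕ) → Finset ℕ,
    (∀ Q u, ((S Q u).card : ℝ) ≤ C / θ) ∧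
    ∀ (Z : Type) (Q : Z → MvPolynomial (Option (Fin n)) ℝ) (G : Z → MvPolynomial (Fin n) ℝ)
      (cz : Z → Option (Fin n) → ℕ) (ζ₁ ζ₂ : Z) (ps : Option (Fin n) → ℕ) (y : Fin n → ℝ) (j : ℕ)
      (M₀ Mj : ℝ), (Q ζ₁).totalDegree ≤ D → (∀ o, ps o / 2 ^ L = cz ζ₂ o) →
      (∀ i, y i = ((ps (some i) % 2 ^ L : ℕ) : ℝ) / 2 ^ L) →
      |((ps none % 2 ^ L : ℕ) : ℝ) / 2 ^ L - MvPolynomial.eval y (G ζ₂)| ≤ 3 * C₀ / 2 ^ L →
      1 ≤ j → j ≤ D → 0 < Mj → θ * Mj ≤ |MvPolynomial.eval y (hpl a cz G Q ζ₁ ζ₂ j)| →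
      |MvPolynomial.eval y (hpl a cz G Q ζ₁ ζ₂ 0)| ≤ M₀ → 2 ^ (R * j) * M₀ ≤ Mj →
      ps none / 2 ^ (L - R) ∈ S (Q ζ₁) (fun i => ps (some i))

/-- **(CNT5)** The count, from SLC, DIF and TCB: given the first leaf, the cell of the second
point and the shape of its leaf up to `2 ^ (-P₀)`, the second point is in a thin set. -/
def CNT5Stmt : Prop :=
  ∀ (n D k₀ : ℕ) (C₀ : ℝ), 1 ≤ C₀ → ∃ C : ℝ, 1 ≤ C ∧
    ∀ (a L : ℕ) (Ω Λ Ξ Z W : Type) [Fintype Ω] (p : Ω → ℝ) (lam : Ω → Λ)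
      (x : Ω → Ξ) (T : Ξ → ℕ) (pos : Ξ → Option (Fin n) → ℕ) (A B : Λ → Option (Fin n) → ℝ)
      (zx : Ξ → Z) (zl : Λ → ℕ → Z) (cz : Z → Option (Fin n) → ℕ)
      (G : Z → MvPolynomial (Fin n) ℝ) (Q : Z → MvPolynomial (Option (Fin n)) ℝ) (cd : Z → W)
      (q : Ω × Ω → ℝ) (bb : Z → Ξ → ℕ) (R' pp ep P₀ : ℕ) (β' : Fin n →₀ ℕ) (k : Fin n),
      StepF n a L C₀ p lam x T pos A B zx zl cz →
      (∀ ω, 0 < p ω → RegG (G (zx (x ω))) (fun _ => 0) 1 k₀ (3 * C₀)) →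
      (∀ ζ, Q ζ ≠ 0 ∧ (Q ζ).totalDegree ≤ D) →
      (∀ ω ω', 0 < p ω → 0 < p ω' → (∀ o, pos (x ω) o / 2 ^ L = pos (x ω') o / 2 ^ L) →
        cd (zx (x ω)) = cd (zx (x ω')) →
        ∀ y ∈ cube (fun _ => 0) 1, |MvPolynomial.eval y (G (zx (x ω))) -
          MvPolynomial.eval y (G (zx (x ω')))| ≤ 1 / 2 ^ P₀) →
      IsLaw q → (∀ v : Ω × Ω, 0 < q v → 0 < p v.1 ∧ 0 < p v.2) →
      R' + pp ≤ P₀ → ep ≤ pp → C ≤ (pp - ep) * Real.log 2 →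
      (∀ v : Ω × Ω, 0 < q v →
        bb (zx (x v.1)) (x v.2) ≤ L ∧ bb (zx (x v.1)) (x v.2) + pp ≤ L + ep ∧
        Ft D R' (Mj a L pos zx cz G Q (bb (zx (x v.1)) (x v.2)) (zx (x v.1)) (x v.2)) ∧
        0 < Mj a L pos zx cz G Q (bb (zx (x v.1)) (x v.2)) (zx (x v.1)) (x v.2) 0 ∧
        |tc (bb (zx (x v.1)) (x v.2)) (hpl a cz G Q (zx (x v.1)) (zx (x v.2)) 0)
          (yb L pos (x v.2)) β'| ≤
          Mj a L pos zx cz G Q (bb (zx (x v.1)) (x v.2)) (zx (x v.1)) (x v.2) 0 / 2 ^ pp ∧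
        Mj a L pos zx cz G Q (bb (zx (x v.1)) (x v.2)) (zx (x v.1)) (x v.2) 0 ≤
          2 ^ ep * |tc (bb (zx (x v.1)) (x v.2)) (hpl a cz G Q (zx (x v.1)) (zx (x v.2)) 0)
            (yb L pos (x v.2)) (β' + Finsupp.single k 1)|) →
      CH q (fun v => bas pos (x v.2)) (fun v => ((cz (zx (x v.2)), cd (zx (x v.2))),
        (zx (x v.1), L - bb (zx (x v.1)) (x v.2),
          fun i => bas pos (x v.2) i / 2 ^ (L - bb (zx (x v.1)) (x v.2))))) ≤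
        Ex q (fun v => n * ((L - bb (zx (x v.1)) (x v.2) : ℕ) * Real.log 2)) -
          ((pp - ep) * Real.log 2 - C)

end Pool.KJ
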