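import Pool.Agent.H72.KJ.Defs

/-!
# LEMMA J (the linear lossy step): rows

`a` = long window / leaf window, `L` = leaf window / grid (both in binary digits). `C` depends on
`n`, `D`, `C₀` only; `C₂` depends also on `k₀`. `RR` is the small error of `StepH`.
-/

set_option autoImplicit false

namespace Pool.KJ

open Finset Real
open Pool.Agent.H49.Ent Pool.Agent.H32.Dense Pool.STK Pool.KAF Pool.KAL Pool.KST Pool.KS3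

/-- **(J3)** Remez inequality from a sub-cube to the leaf, for all polynomials at once, with a
universal exponent. -/
def J3Stmt : Prop :=
  ∀ (n D : ℕ) (C₀ : ℝ), 1 ≤ C₀ → ∃ C : ℝ, 1 ≤ C ∧ ∀ k₀ : ℕ, ∃ C₂ : ℝ, 1 ≤ C₂ ∧
    ∀ (a L : ℕ) (Ω Λ Ξ Z : Type) [Fintype Ω] (p : Ω → ℝ) (lam : Ω → Λ)
      (x : Ω → Ξ) (T : Ξ → ℕ) (pos : Ξ → Option (Fin n) → ℕ) (A B : Λ → Option (Fin n) → ℝ)
      (zx : Ξ → Z) (zl : Λ → ℕ → Z) (cz : Z → Option (Fin n) → ℕ)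
      (G : Z → MvPolynomial (Fin n) ℝ) (κ γ N b : ℕ) (δ ε e₁ e₃ η : ℝ) (e : Ξ → ℝ),
      StepH n a L C₀ k₀ κ γ N δ ε e₁ e₃ p lam x T pos A B zx zl cz G e → b ≤ L → 0 < η →
      Pe p (fun ω => ∃ P : MvPolynomial (Option (Fin n)) ℝ, P ≠ 0 ∧ P.totalDegree ≤ D ∧
        Real.exp ((C * b + C₂ * RR n L κ γ N ε e₁ e₃) / η) *
          NB D L (G (zx (x ω))) P (crb b (scb L pos b (x ω))) (1 / 2 ^ b) <
          NB D L (G (zx (x ω))) P (fun _ => 0) 1) ≤ η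

/-- **(J3P)** (pure) If the supremum decreases slowly from the unit cube to the sub-cube of side
`2 ^ (-b₁)`, then on all smaller sub-cubes the Taylor polynomial is dominated by terms of order at
most `I`. -/
def J3PStmt : Prop :=
  ∀ n k : ℕ, ∃ C : ℝ, 1 ≤ C ∧ ∀ (h : MvPolynomial (Fin n) ℝ) (y : Fin n → ℝ) (b₁ b I : ℕ) (μ : ℝ)
    (κ₁ κ : Fin n → ℕ), h.totalDegree ≤ k → y ∈ cube (fun _ => 0) 1 →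
    y ∈ cube (crb b₁ κ₁) (1 / 2 ^ b₁) → y ∈ cube (crb b κ) (1 / 2 ^ b) → b₁ ≤ b →
    cs (fun _ => 0) 1 h ≤ Real.exp μ * cs (crb b₁ κ₁) (1 / 2 ^ b₁) h →
    μ + C ≤ I * (b₁ * Real.log 2) →
    ∃ β : Fin n →₀ ℕ, β.degree ≤ I ∧ cs (crb b κ) (1 / 2 ^ b) h ≤ C * |tc b h y β|

/-- **(TCB)** (pure) Taylor coefficients at a point of the cube, in units of its side. -/
def TCBStmt : Prop :=
  ∀ n k : ℕ, ∃ C : ℝ, 1 ≤ C ∧ ∀ (h : MvPolynomial (Fin n) ℝ) (y : Fin n → ℝ) (b : ℕ)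
    (κ : Fin n → ℕ) (β : Fin n →₀ ℕ), h.totalDegree ≤ k → y ∈ cube (crb b κ) (1 / 2 ^ b) →
    |tc b h y β| ≤ C * cs (crb b κ) (1 / 2 ^ b) h

/-- **(SUB)** (pure) Suprema on a cube and on a sub-cube. -/
def SUBStmt : Prop :=
  ∀ n k : ℕ, ∃ C : ℝ, 1 ≤ C ∧ ∀ (h : MvPolynomial (Fin n) ℝ) (c c' : Fin n → ℝ) (s : ℝ) (m : ℕ),
    h.totalDegree ≤ k → 0 < s → cube c' (s / 2 ^ m) ⊆ cube c s →
    cs c' (s / 2 ^ m) h ≤ cs c s h ∧ cs c s h ≤ C * 2 ^ (k * m) * cs c' (s / 2 ^ m) h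

/-- **(DEP)** Depth: the polynomials of the first leaf at the grid cell of the second point. `Q`
are the polynomials of `qdt`. -/
def DEPStmt : Prop :=
  ∀ (n D : ℕ) (C₀ : ℝ), 1 ≤ C₀ → ∃ C : ℝ, 1 ≤ C ∧ ∀ k₀ : ℕ, ∃ C₂ : ℝ, 1 ≤ C₂ ∧
    ∀ (a L : ℕ) (Ω Λ Ξ Z : Type) [Fintype Ω] (p : Ω → ℝ) (lam : Ω → Λ)
      (x : Ω → Ξ) (T : Ξ → ℕ) (pos : Ξ → Option (Fin n) → ℕ) (A B : Λ → Option (Fin n) → ℝ)
      (zx : Ξ → Z) (zl : Λ → ℕ → Z) (cz : Z → Option (Fin n) → ℕ)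
      (G : Z → MvPolynomial (Fin n) ℝ) (κ γ N : ℕ) (δ ε e₁ e₃ eT lm : ℝ) (e : Ξ → ℝ),
      StepH n a L C₀ k₀ κ γ N δ ε e₁ e₃ p lam x T pos A B zx zl cz G e →
      (∀ ω, 0 < p ω → ¬ Bad (G (zx (x ω))) (fun _ => 0) 1 D lm) →
      6 * C₀ / 2 ^ L ≤ lm → lm ≤ 1 →
      (a + L) * Real.log 2 - CH p (fun ω => T (x ω)) lam ≤ eT →
      ∃ Q : Z → MvPolynomial (Option (Fin n)) ℝ, (∀ ζ, Q ζ ≠ 0 ∧ (Q ζ).totalDegree ≤ D) ∧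
        ∀ η : ℝ, 0 < η → Pe (dbl p lam) (fun v => ¬ ∃ j, 1 ≤ j ∧ j ≤ D ∧
          2 ^ (L * (j - 1)) * Mj a L pos zx cz G Q L (zx (x v.1)) (x v.2) 0 ≤
            Real.exp ((C * a + C₂ * (RR n L κ γ N ε e₁ e₃ + eT)) / η) * lm *
              Mj a L pos zx cz G Q L (zx (x v.1)) (x v.2) j) ≤ η

/-- **(J4)** (pure) Pigeonhole for the scales: `T β` are the Taylor coefficients, `w = 1 / eps`,
`P` is the smallest scale. -/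
def J4Stmt : Prop :=
  ∀ n I w : ℕ, 2 ≤ w → ∃ Ic : ℕ, ∀ (T : (Fin n →₀ ℕ) → ℝ) (H C : ℝ) (P Λ : ℕ), 0 < H → 1 ≤ C →
    |T 0| ≤ H / 2 ^ Λ → (∃ β : Fin n →₀ ℕ, β.degree ≤ I ∧ H ≤ C * |T β|) →
    P * w ^ (2 * Ic) ≤ Λ → w ^ 2 ∣ P → C < 2 ^ (P / w ^ 2) →
    ∃ (i : ℕ) (β : Fin n →₀ ℕ) (k : Fin n), i ≤ Ic ∧ β.degree < I ∧
      |T β| ≤ H / 2 ^ (P * w ^ (2 * i)) ∧
      H ≤ 2 ^ (P * w ^ (2 * i) / w ^ 2) * |T (β + Finsupp.single k 1)|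

/-- **(NEA)** (pure) A polynomial in one variable which is small against its `j`-th derivative has
a complex root near by. -/
def NEAStmt : Prop :=
  ∀ D : ℕ, ∃ C : ℝ, 1 ≤ C ∧ ∀ (q : Polynomial ℝ) (N ε : ℝ) (j : ℕ), q.natDegree ≤ D → 1 ≤ j →
    j ≤ D → 0 < ε → |q.eval N| ≤ ε ^ j * |(Polynomial.derivative^[j] q).eval N| → q ≠ 0 →
    ∃ z ∈ (q.map (algebraMap ℝ ℂ)).roots, |N - z.re| ≤ C * ε

/-- **(TYP)** (pure) Few grid points of a cube are near the zero set: `g` grid points per side. -/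
def TYPStmt : Prop :=
  ∀ n k : ℕ, ∃ C : ℝ, 1 ≤ C ∧ ∀ (h : MvPolynomial (Fin n) ℝ) (L b : ℕ) (κ : Fin n → ℕ) (θ : ℝ)
    (S : Finset (Fin n → ℕ)), h.totalDegree ≤ k → b ≤ L → 0 < θ → θ ≤ 1 →
    (∀ u ∈ S, (∀ i, u i / 2 ^ (L - b) = κ i) ∧
      |MvPolynomial.eval (fun i => (u i : ℝ) / 2 ^ L) h| < θ * cs (crb b κ) (1 / 2 ^ b) h) →
    (S.card : ℝ) ≤ C * (θ ^ ((1 : ℝ) / (k + 1)) + 1 / 2 ^ (L - b)) * (2 ^ (L - b)) ^ n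

/-- **(J5)** The rows after `R`: entropy part. `bb` is the random scale (values in `S`), `Bv` the
event. Points within `θ⁻¹ 2 ^ (-R)` of the zero set are typical outside a proportion
`exp (-lf)`. -/
def J5Stmt : Prop :=
  ∀ (n D : ℕ) (C₀ : ℝ), 1 ≤ C₀ → ∀ k₀ : ℕ, ∃ C₂ : ℝ, 1 ≤ C₂ ∧
    ∀ (a L : ℕ) (Ω Λ Ξ Z β : Type) [Fintype Ω] (p : Ω → ℝ) (lam : Ω → Λ)
      (x : Ω → Ξ) (T : Ξ → ℕ) (pos : Ξ → Option (Fin n) → ℕ) (A B : Λ → Option (Fin n) → ℝ)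
      (zx : Ξ → Z) (zl : Λ → ℕ → Z) (cz : Z → Option (Fin n) → ℕ)
      (G : Z → MvPolynomial (Fin n) ℝ) (wz : Z → β) (wl : Λ → β)
      (Q : Z → MvPolynomial (Option (Fin n)) ℝ) (S : Finset ℕ) (bb : Z → Ξ → ℕ)
      (Bv : Z → Ξ → Prop) (R R' pp ep P₀ P₁ : ℕ) (β' : Fin n →₀ ℕ) (k : Fin n)
      (θ lf ef cnt e₅ eo pB h : ℝ),
      StepF n a L C₀ p lam x T pos A B zx zl cz →
      (∀ ω, 0 < p ω → RegG (G (zx (x ω))) (fun _ => 0) 1 k₀ (3 * C₀)) →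
      (∀ ω, 0 < p ω → |rp (2 ^ L) (posS pos L) (x ω) none - MvPolynomial.eval
        (yb L pos (x ω)) (G (zx (x ω)))| ≤ 3 * C₀ / 2 ^ L) →
      (∀ ω, 0 < p ω → wz (zx (x ω)) = wl (lam ω)) →
      (∀ ζ, Q ζ ≠ 0 ∧ (Q ζ).totalDegree ≤ D) →
      -- the leaf is full, the count at the second point, the point is known from its position
      n * (L * Real.log 2) - CH p (fun ω => bas pos (x ω)) (fun ω => zx (x ω)) ≤ ef →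
      CH (dbl p lam) (fun v => pos (x v.2) none) (fun v => (bas pos (x v.2), zx (x v.1))) ≤
        cnt →
      CH p x (fun ω => (pos (x ω), wz (zx (x ω)))) ≤ e₅ →
      -- the event
      0 < pB → pB ≤ Pe (dbl p lam) (fun v => Bv (zx (x v.1)) (x v.2)) →
      (∀ b ∈ S, b ≤ L) → (∀ v : Ω × Ω, 0 < dbl p lam v → Bv (zx (x v.1)) (x v.2) →
        bb (zx (x v.1)) (x v.2) ∈ S ∧ bb (zx (x v.1)) (x v.2) + pp ≤ L + ep ∧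
        Th D R (Mj a L pos zx cz G Q (bb (zx (x v.1)) (x v.2)) (zx (x v.1)) (x v.2)) ∧
        Ft D R' (Mj a L pos zx cz G Q (bb (zx (x v.1)) (x v.2)) (zx (x v.1)) (x v.2)) ∧
        0 < Mj a L pos zx cz G Q (bb (zx (x v.1)) (x v.2)) (zx (x v.1)) (x v.2) 0 ∧
        |tc (bb (zx (x v.1)) (x v.2)) (hpl a cz G Q (zx (x v.1)) (zx (x v.2)) 0)
          (yb L pos (x v.2)) β'| ≤
          Mj a L pos zx cz G Q (bb (zx (x v.1)) (x v.2)) (zx (x v.1)) (x v.2) 0 / 2 ^ pp ∧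
        Mj a L pos zx cz G Q (bb (zx (x v.1)) (x v.2)) (zx (x v.1)) (x v.2) 0 ≤
          2 ^ ep * |tc (bb (zx (x v.1)) (x v.2)) (hpl a cz G Q (zx (x v.1)) (zx (x v.2)) 0)
            (yb L pos (x v.2)) (β' + Finsupp.single k 1)|) →
      -- the rows
      R ≤ R' → R' + pp ≤ P₀ → P₀ ≤ P₁ → P₁ ≤ L → ep ≤ pp → C₂ ≤ (pp - ep) * Real.log 2 →
      OV p x L pos (fun ξ => wz (zx ξ)) zx G P₀ P₁ eo →
      Sup p x L pos (fun ξ => wz (zx ξ)) R P₁ h →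
      0 < θ → θ ≤ 1 → 0 < lf → lf * ((k₀ + 1) * D + 1) ≤ Real.log (1 / θ) →
      lf ≤ (pp - ep) * Real.log 2 →
      (pp - ep) * Real.log 2 ≤ h +
        (n * (a * Real.log 2) + ef + cnt + e₅ + 1 + S.card * (ef + eo)) / pB +
        Real.log S.card + C₂ * (1 + Real.log (1 / θ)) +
        C₂ * (a + L + 1) * ((S.card * ef / pB + 1) / lf)

/-- **(J6)** (pure) Greedy covering; `h k k'` is the entropy of the mesh rows `(k, k']` in units of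
the mesh. -/
def J6Stmt : Prop :=
  ∀ (h : ℕ → ℕ → ℝ) (k₂ Lm Λ : ℕ) (ε er : ℝ), 0 ≤ ε → ε ≤ 1 → 0 ≤ er → (∀ k k', 0 ≤ h k k') →
    (∀ k₁ k₂ k₃, k₁ ≤ k₂ → k₂ ≤ k₃ → k₃ ≤ Lm → h k₁ k₂ + h k₂ k₃ ≤ h k₁ k₃ + er) →
    (∀ k, k₂ ≤ k → k + Λ ≤ Lm → ∃ k', k < k' ∧ k' ≤ k + Λ ∧ (1 - ε) * (k' - k) ≤ h k k') →
    (1 - ε) * (Lm - k₂ - Λ) ≤ h k₂ Lm + (Lm + 1) * er

/-- **(QDE)** The polynomials `Q` of the step (from DEP, `qdt` and `cnt`). -/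
def QDEStmt : Prop :=
  ∀ (n D u : ℕ) (C₀ : ℝ), 1 ≤ n → 1 ≤ C₀ → ∃ CD : ℝ, 1 ≤ CD ∧
    ∀ k₀ E M : ℕ, 1 ≤ E → 1 ≤ M → ∃ (η₁ : ℝ) (κ₀ N₀ m₀ : ℕ), 0 < η₁ ∧ 1 ≤ κ₀ ∧
    ∀ (m e₀ L : ℕ) (Ω Λ Ξ Z : Type) [Fintype Ω] (p : Ω → ℝ) (lam : Ω → Λ)
      (x : Ω → Ξ) (T : Ξ → ℕ) (pos : Ξ → Option (Fin n) → ℕ) (A B : Λ → Option (Fin n) → ℝ)
      (zx : Ξ → Z) (zl : Λ → ℕ → Z) (cz : Z → Option (Fin n) → ℕ)
      (G : Z → MvPolynomial (Fin n) ℝ) (γ : ℕ) (δ ε e₁ e₃ : ℝ)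
      (e : Ξ → ℝ), m₀ ≤ m → e₀ = M * m → (u + 1) * e₀ ≤ L → L ≤ E * e₀ →
      e₁ ≤ η₁ * e₀ → e₃ ≤ η₁ * e₀ → γ ≤ η₁ * e₀ → ε ≤ η₁ →
      StepH n (3 * e₀) L C₀ k₀ κ₀ γ N₀ δ ε e₁ e₃ p lam x T pos A B zx zl cz G e →
      (∀ ω, 0 < p ω → ¬ Bad (G (zx (x ω))) (fun _ => 0) 1 D (2 ^ (u * e₀) / 2 ^ L)) →
      (((3 * e₀ + L : ℕ) : ℝ) * Real.log 2 - CH p (fun ω => T (x ω)) lam ≤ η₁ * e₀) →
      ∃ Q : Z → MvPolynomial (Option (Fin n)) ℝ, (∀ ζ, Q ζ ≠ 0 ∧ (Q ζ).totalDegree ≤ D) ∧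
        CH (dbl p lam) (fun v => pos (x v.2) none) (fun v => (bas pos (x v.2), zx (x v.1))) ≤
          CD * e₀ ∧
        Depth (3 * e₀) L D p lam x pos zx cz G Q (2 ^ (u * e₀) / 2 ^ L) (CD * e₀)

/-- **(JCE)** The core, event part (from J3, J3P, TCB, SUB, J4); `Q` are any polynomials of
degree at most `D` with the depth property. -/
def JCEStmt : Prop :=
  ∀ (n D u w : ℕ) (C₀ CD : ℝ), 1 ≤ n → 1 ≤ C₀ → 4 ≤ w → ∃ pB : ℝ, 0 < pB ∧ pB ≤ 1 ∧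
    ∀ K : ℕ, 1 ≤ K → ∃ A₀ : ℕ, 1 ≤ A₀ ∧
    ∀ k₀ E : ℕ, 1 ≤ E → ∃ M₀ : ℕ, ∀ M ≥ M₀, ∃ (η₁ : ℝ) (κ₀ N₀ m₀ : ℕ), 0 < η₁ ∧ 1 ≤ κ₀ ∧
    ∀ (m e₀ L r₂ : ℕ) (Ω Λ Ξ Z : Type) [Fintype Ω] (p : Ω → ℝ) (lam : Ω → Λ)
      (x : Ω → Ξ) (T : Ξ → ℕ) (pos : Ξ → Option (Fin n) → ℕ) (A B : Λ → Option (Fin n) → ℝ)
      (zx : Ξ → Z) (zl : Λ → ℕ → Z) (cz : Z → Option (Fin n) → ℕ)
      (G : Z → MvPolynomial (Fin n) ℝ) (γ : ℕ) (δ ε e₁ e₃ : ℝ) (e : Ξ → ℝ)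
      (Q : Z → MvPolynomial (Option (Fin n)) ℝ), m₀ ≤ m → e₀ = M * m → m ∣ L → L ≤ E * e₀ →
      e₁ ≤ η₁ * e₀ → e₃ ≤ η₁ * e₀ → γ ≤ η₁ * e₀ → ε ≤ η₁ →
      StepH n (3 * e₀) L C₀ k₀ κ₀ γ N₀ δ ε e₁ e₃ p lam x T pos A B zx zl cz G e →
      (∀ ζ, Q ζ ≠ 0 ∧ (Q ζ).totalDegree ≤ D) →
      Depth (3 * e₀) L D p lam x pos zx cz G Q (2 ^ (u * e₀) / 2 ^ L) (CD * e₀) →
      (1 : ℝ) / 16 ≤ Pe (dbl p lam) (fun v =>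
        ¬ Th D r₂ (Mj (3 * e₀) L pos zx cz G Q 0 (zx (x v.1)) (x v.2))) →
      ∀ k : ℕ, r₂ + e₀ ≤ m * k → m * k + A₀ * e₀ ≤ L →
        ∃ (P : ℕ) (β' : Fin n →₀ ℕ) (kk : Fin n) (bb : Z → Ξ → ℕ) (Bv : Z → Ξ → Prop),
        K * M ≤ P ∧ P ≤ A₀ * M ∧ w ^ 2 ∣ P ∧
        pB ≤ Pe (dbl p lam) (fun v => Bv (zx (x v.1)) (x v.2)) ∧
        ∀ v : Ω × Ω, 0 < dbl p lam v → Bv (zx (x v.1)) (x v.2) →
        m ∣ bb (zx (x v.1)) (x v.2) ∧ bb (zx (x v.1)) (x v.2) ≤ L ∧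
        bb (zx (x v.1)) (x v.2) + m * P ≤ L + m * (P / w ^ 2) ∧
        Th D (m * k) (Mj (3 * e₀) L pos zx cz G Q (bb (zx (x v.1)) (x v.2)) (zx (x v.1))
          (x v.2)) ∧
        Ft D (m * k + ((k₀ + 1) * D + 1) * m) (Mj (3 * e₀) L pos zx cz G Q
          (bb (zx (x v.1)) (x v.2)) (zx (x v.1)) (x v.2)) ∧
        0 < Mj (3 * e₀) L pos zx cz G Q (bb (zx (x v.1)) (x v.2)) (zx (x v.1)) (x v.2) 0 ∧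
        |tc (bb (zx (x v.1)) (x v.2)) (hpl (3 * e₀) cz G Q (zx (x v.1)) (zx (x v.2)) 0)
          (yb L pos (x v.2)) β'| ≤
          Mj (3 * e₀) L pos zx cz G Q (bb (zx (x v.1)) (x v.2)) (zx (x v.1)) (x v.2) 0 /
            2 ^ (m * P) ∧
        Mj (3 * e₀) L pos zx cz G Q (bb (zx (x v.1)) (x v.2)) (zx (x v.1)) (x v.2) 0 ≤
          2 ^ (m * (P / w ^ 2)) *
            |tc (bb (zx (x v.1)) (x v.2)) (hpl (3 * e₀) cz G Q (zx (x v.1)) (zx (x v.2)) 0)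
              (yb L pos (x v.2)) (β' + Finsupp.single kk 1)|

/-- **(JADD)** The entropies of the rows are superadditive, up to the defect of the leaf. -/
def JADDStmt : Prop :=
  ∀ (n : ℕ) (C₀ : ℝ), 1 ≤ C₀ → ∃ C : ℝ, 1 ≤ C ∧
    ∀ (a L k₀ : ℕ) (Ω Λ Ξ Z β : Type) [Fintype Ω] (p : Ω → ℝ) (lam : Ω → Λ)
      (x : Ω → Ξ) (T : Ξ → ℕ) (pos : Ξ → Option (Fin n) → ℕ) (A B : Λ → Option (Fin n) → ℝ)
      (zx : Ξ → Z) (zl : Λ → ℕ → Z) (cz : Z → Option (Fin n) → ℕ)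
      (G : Z → MvPolynomial (Fin n) ℝ) (wz : Z → β) (ef : ℝ) (r₁ r₂ r₃ : ℕ),
      StepF n a L C₀ p lam x T pos A B zx zl cz →
      (∀ ω, 0 < p ω → RegG (G (zx (x ω))) (fun _ => 0) 1 k₀ (3 * C₀)) →
      (∀ ω, 0 < p ω → |rp (2 ^ L) (posS pos L) (x ω) none - MvPolynomial.eval
        (yb L pos (x ω)) (G (zx (x ω)))| ≤ 3 * C₀ / 2 ^ L) →
      n * (L * Real.log 2) - CH p (fun ω => bas pos (x ω)) (fun ω => zx (x ω)) ≤ ef →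
      r₁ ≤ r₂ → r₂ ≤ r₃ → r₃ ≤ L →
      hrw p x L pos (fun ξ => wz (zx ξ)) r₁ r₂ + hrw p x L pos (fun ξ => wz (zx ξ)) r₂ r₃ ≤
        hrw p x L pos (fun ξ => wz (zx ξ)) r₁ r₃ + ef + C

/-- **(JC)** The core, for any polynomials `Q` with the depth property: if the difference of the
two leaves is not small with probability `1 / 16`, then after every mesh row there is a full block
of rows. `e₀ = M m` is the step, `m` the mesh,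
`w` the quality of fullness, `u` the exponent of the thickness; `A₀` does not depend on `k₀`, `E`,
`M`. -/
def JCStmt : Prop :=
  ∀ (n D u w : ℕ) (C₀ CD : ℝ), 1 ≤ n → 1 ≤ C₀ → 4 ≤ w → ∃ A₀ : ℕ, 1 ≤ A₀ ∧
    ∀ k₀ E : ℕ, 1 ≤ E → ∃ M₀ : ℕ, ∀ M ≥ M₀, ∃ (η₁ : ℝ) (κ₀ N₀ m₀ : ℕ), 0 < η₁ ∧ 1 ≤ κ₀ ∧
    ∀ (m e₀ L r₂ : ℕ) (Ω Λ Ξ Z β : Type) [Fintype Ω] (p : Ω → ℝ) (lam : Ω → Λ)
      (x : Ω → Ξ) (T : Ξ → ℕ) (pos : Ξ → Option (Fin n) → ℕ) (A B : Λ → Option (Fin n) → ℝ)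
      (zx : Ξ → Z) (zl : Λ → ℕ → Z) (cz : Z → Option (Fin n) → ℕ)
      (G : Z → MvPolynomial (Fin n) ℝ) (wz : Z → β) (wl : Λ → β) (γ : ℕ) (δ ε e₁ e₃ : ℝ)
      (e : Ξ → ℝ) (Q : Z → MvPolynomial (Option (Fin n)) ℝ),
      m₀ ≤ m → e₀ = M * m → m ∣ L → L ≤ E * e₀ →
      e₁ ≤ η₁ * e₀ → e₃ ≤ η₁ * e₀ → γ ≤ η₁ * e₀ → ε ≤ η₁ →
      StepH n (3 * e₀) L C₀ k₀ κ₀ γ N₀ δ ε e₁ e₃ p lam x T pos A B zx zl cz G e →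
      (∀ ω, 0 < p ω → wz (zx (x ω)) = wl (lam ω)) →
      CH p x (fun ω => (pos (x ω), wz (zx (x ω)))) ≤ (n + 1) * e₀ →
      (∀ ζ, Q ζ ≠ 0 ∧ (Q ζ).totalDegree ≤ D) →
      CH (dbl p lam) (fun v => pos (x v.2) none) (fun v => (bas pos (x v.2), zx (x v.1))) ≤
        CD * e₀ →
      Depth (3 * e₀) L D p lam x pos zx cz G Q (2 ^ (u * e₀) / 2 ^ L) (CD * e₀) →
      (1 : ℝ) / 16 ≤ Pe (dbl p lam) (fun v =>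
        ¬ Th D r₂ (Mj (3 * e₀) L pos zx cz G Q 0 (zx (x v.1)) (x v.2))) →
      ∀ k : ℕ, r₂ + e₀ ≤ m * k → m * k + A₀ * e₀ ≤ L → ∃ P : ℕ, M ≤ P ∧ P ≤ A₀ * M ∧
        ∀ (k' : ℕ) (h : ℝ), P ≤ w * (k' - k) → k' ≤ k + P →
          OV p x L pos (fun ξ => wz (zx ξ)) zx G (m * k') (m * (k' + 1)) (η₁ * e₀) →
          Sup p x L pos (fun ξ => wz (zx ξ)) (m * k) (m * (k' + 1)) h →
          (1 - 4 / w) * ((k' - k) * (m * Real.log 2)) ≤ h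

/-- **(J2)** Small difference: the closed label at the precision of the row `r₂` (`q` grid digits
are lost). `Q` are any polynomials of degree at most `D`; `i₀` is the time coordinate. -/
def J2Stmt : Prop :=
  ∀ (n D u : ℕ) (C₀ : ℝ), 1 ≤ n → 1 ≤ C₀ → ∃ Cq Cc : ℕ, 1 ≤ Cq ∧
    ∀ s k₀ E : ℕ, 1 ≤ E → ∃ M₀ : ℕ, ∀ M ≥ M₀,
    ∃ (η₁ : ℝ) (κ₀ N₀ m₀ : ℕ), 0 < η₁ ∧ 1 ≤ κ₀ ∧
    ∀ (m e₀ L r₂ : ℕ) (Ω Λ Ξ Z β : Type) [Fintype Ω] (p : Ω → ℝ) (lam : Ω → Λ)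
      (x : Ω → Ξ) (T : Ξ → ℕ) (pos : Ξ → Option (Fin n) → ℕ) (A B : Λ → Option (Fin n) → ℝ)
      (zx : Ξ → Z) (zl : Λ → ℕ → Z) (cz : Z → Option (Fin n) → ℕ)
      (G : Z → MvPolynomial (Fin n) ℝ) (wz : Z → β) (wl : Λ → β) (γ : ℕ) (δ ε e₁ e₃ : ℝ)
      (e : Ξ → ℝ) (Q : Z → MvPolynomial (Option (Fin n)) ℝ) (i₀ : Fin n),
      m₀ ≤ m → e₀ = M * m → m ∣ L → L ≤ E * e₀ → m ∣ r₂ → r₂ + m ≤ L → L ≤ r₂ + s * e₀ →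
      e₁ ≤ η₁ * e₀ → e₃ ≤ η₁ * e₀ → γ ≤ η₁ * e₀ → ε ≤ η₁ →
      StepH n (3 * e₀) L C₀ k₀ κ₀ γ N₀ δ ε e₁ e₃ p lam x T pos A B zx zl cz G e →
      (∀ ω, 0 < p ω → ¬ Bad (G (zx (x ω))) (fun _ => 0) 1 D (2 ^ (u * e₀) / 2 ^ L)) →
      (∀ ω, pos (x ω) (some i₀) = T (x ω)) →
      (∀ ω, 0 < p ω → wz (zx (x ω)) = wl (lam ω)) →
      (((3 * e₀ + L : ℕ) : ℝ) * Real.log 2 - CH p (fun ω => T (x ω)) lam ≤ η₁ * e₀) →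
      CH p x (fun ω => (pos (x ω), wz (zx (x ω)))) ≤ (n + 1) * e₀ →
      OV p x L pos (fun ξ => wz (zx ξ)) zx G r₂ (r₂ + m) (η₁ * e₀) →
      (∀ ζ, Q ζ ≠ 0 ∧ (Q ζ).totalDegree ≤ D) →
      Pe (dbl p lam) (fun v =>
        ¬ Th D r₂ (Mj (3 * e₀) L pos zx cz G Q 0 (zx (x v.1)) (x v.2))) ≤ 1 / 16 →
      ∃ (Y : Type) (y : Z → Y) (sl : Λ → Option Y) (q : ℕ) (Sc : (Fin n → ℕ) × Y → Finset ℕ),
        q ≤ (Cq + s) * e₀ ∧ (∀ g, (Sc g).card ≤ Cc) ∧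
        1 / 4 ≤ Pe p (fun ω => some (y (zx (x ω))) = sl (lam ω) ∧
          pos (x ω) none / 2 ^ q ∈ Sc (bas pos (x ω), y (zx (x ω))))

/-- **(JSTEP)** The step: hypotheses of `PARStmt` with the own-visibility of the rows which are not
saturated and the mean rate of the passive coordinate on the last `Cr e₀` rows instead of the
linear spread (`i₀` is the time coordinate). `c` = missing rate; `w` = quality of the saturated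
rows (chosen by the user, at least `w₀`). From QDE, JC, JADD, J6, J2. -/
def JSTEPStmt : Prop :=
  ∀ (n D u : ℕ) (C₀ c : ℝ), 1 ≤ n → 1 ≤ C₀ → 0 < c → c ≤ 1 → ∃ w₀ : ℕ, ∀ w ≥ w₀,
    ∃ Cj Cr₀ Cc : ℕ, 1 ≤ Cr₀ ∧ ∀ Cr ≥ Cr₀, ∀ k₀ E : ℕ, 1 ≤ E → ∃ M₀ : ℕ, ∀ M ≥ M₀,
    ∃ (η₁ : ℝ) (κ₀ N₀ m₀ : ℕ), 0 < η₁ ∧ 1 ≤ κ₀ ∧
    ∀ (m e₀ L : ℕ) (Ω Λ Ξ Z β : Type) [Fintype Ω] (p : Ω → ℝ) (lam : Ω → Λ)
      (x : Ω → Ξ) (T : Ξ → ℕ) (pos : Ξ → Option (Fin n) → ℕ) (A B : Λ → Option (Fin n) → ℝ)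
      (zx : Ξ → Z) (zl : Λ → ℕ → Z) (cz : Z → Option (Fin n) → ℕ)
      (G : Z → MvPolynomial (Fin n) ℝ) (wz : Z → β) (wl : Λ → β) (γ : ℕ) (δ ε e₁ e₃ : ℝ)
      (e : Ξ → ℝ) (i₀ : Fin n),
      m₀ ≤ m → e₀ = M * m → m ∣ L → Cr * e₀ ≤ L → L ≤ E * e₀ →
      e₁ ≤ η₁ * e₀ → e₃ ≤ η₁ * e₀ → γ ≤ η₁ * e₀ → ε ≤ η₁ →
      StepH n (3 * e₀) L C₀ k₀ κ₀ γ N₀ δ ε e₁ e₃ p lam x T pos A B zx zl cz G e →
      (∀ ω, 0 < p ω → ¬ Bad (G (zx (x ω))) (fun _ => 0) 1 D (2 ^ (u * e₀) / 2 ^ L)) →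
      (∀ ω, pos (x ω) (some i₀) = T (x ω)) →
      (∀ ω, 0 < p ω → wz (zx (x ω)) = wl (lam ω)) →
      (((3 * e₀ + L : ℕ) : ℝ) * Real.log 2 - CH p (fun ω => T (x ω)) lam ≤ η₁ * e₀) →
      CH p x (fun ω => (pos (x ω), wz (zx (x ω)))) ≤ (n + 1) * e₀ →
      -- regular rows
      (∀ k k', k ≤ k' → m * k' ≤ L → Sup p x L pos (fun ξ => wz (zx ξ)) (m * k) (m * k')
        (hrw p x L pos (fun ξ => wz (zx ξ)) (m * k) (m * k') + η₁ * e₀)) →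
      -- own-visibility at the mesh rows which are not saturated
      (∀ k, m * (k + 1) ≤ L →
        OV p x L pos (fun ξ => wz (zx ξ)) zx G (m * k) (m * (k + 1)) (η₁ * e₀) ∨
        (1 - 1 / w) * (m * Real.log 2) ≤
          hrw p x L pos (fun ξ => wz (zx ξ)) (m * k) (m * (k + 1))) →
      -- the mean rate
      hrw p x L pos (fun ξ => wz (zx ξ)) (L - Cr * e₀) L ≤
        (1 - c) * (Cr * e₀ * Real.log 2) →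
      ∃ (Y : Type) (y : Z → Y) (sl : Λ → Option Y) (q : ℕ) (Sc : (Fin n → ℕ) × Y → Finset ℕ),
        q ≤ (Cr + Cj) * e₀ ∧ (∀ g, (Sc g).card ≤ Cc) ∧
        1 / 4 ≤ Pe p (fun ω => some (y (zx (x ω))) = sl (lam ω) ∧
          pos (x ω) none / 2 ^ q ∈ Sc (bas pos (x ω), y (zx (x ω))))

end Pool.KJ
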