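import Pool.Agent.H82.KSP.STEP

/-!
# LEMMA J (the linear lossy step): definitions

`K_JUMP_helper79.md`. Notation of `StepF`/`StepH`: `v.1`, `v.2` are two incidences of one line
(law `dbl p lam`), `ζ₁ = zx (x v.1)`, `ζ₂ = zx (x v.2)`. All polynomials in the base coordinates
are in the units of the leaf cube of `ζ₂`; the scale `b ≤ L` is the dyadic sub-cube of side
`2 ^ (-b)` of that leaf cube; rows `R ≤ L` are thicknesses `2 ^ (-R)` in the same units.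
-/

set_option autoImplicit false

namespace Pool.KJ

open Finset Real
open Pool.Agent.H49.Ent Pool.Agent.H32.Dense Pool.STK Pool.KAF Pool.KAL Pool.KST Pool.KS3

variable {n : ℕ} {Ω Ξ Z β : Type}

open Classical in
/-- The probability of an event. -/
noncomputable def Pe {Ω : Type} [Fintype Ω] (p : Ω → ℝ) (A : Ω → Prop) : ℝ :=
  ∑ ω, if A ω then p ω else 0

/-- The polynomial `P` (units of the long window) in the units of the leaf cube of `ζ`. -/
noncomputable def lfp (a : ℕ) (cz : Z → Option (Fin n) → ℕ)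
    (P : MvPolynomial (Option (Fin n)) ℝ) (ζ : Z) : MvPolynomial (Option (Fin n)) ℝ :=
  shf P (1 / 2 ^ a) (crz cz a ζ)

/-- `h_j`: the `j`-th derivative in the passive direction of `Q ζ₁`, on the leaf `ζ₂`, in leaf
units. -/
noncomputable def hpl (a : ℕ) (cz : Z → Option (Fin n) → ℕ) (G : Z → MvPolynomial (Fin n) ℝ)
    (Q : Z → MvPolynomial (Option (Fin n)) ℝ) (ζ₁ ζ₂ : Z) (j : ℕ) : MvPolynomial (Fin n) ℝ :=
  gr (G ζ₂) (dN j (lfp a cz (Q ζ₁) ζ₂))

/-- The real base coordinates, in leaf units. -/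
noncomputable def yb (L : ℕ) (pos : Ξ → Option (Fin n) → ℕ) (ξ : Ξ) : Fin n → ℝ :=
  fun i => rp (2 ^ L) (posS pos L) ξ (some i)

/-- The sub-cube of side `2 ^ (-b)` of the leaf cube, base coordinates (for `b ≤ L`). -/
def scb (L : ℕ) (pos : Ξ → Option (Fin n) → ℕ) (b : ℕ) (ξ : Ξ) : Fin n → ℕ :=
  fun i => posS pos L ξ (some i) / 2 ^ (L - b)

/-- The corner of a dyadic cube of side `2 ^ (-b)`. -/
noncomputable def crb (b : ℕ) (κ : Fin n → ℕ) : Fin n → ℝ := fun i => (κ i : ℝ) / 2 ^ b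

/-- `M_j`: the supremum of `h_j` on the sub-cube of side `2 ^ (-b)` of the point `ξ₂`. -/
noncomputable def Mj (a L : ℕ) (pos : Ξ → Option (Fin n) → ℕ) (zx : Ξ → Z)
    (cz : Z → Option (Fin n) → ℕ) (G : Z → MvPolynomial (Fin n) ℝ)
    (Q : Z → MvPolynomial (Option (Fin n)) ℝ) (b : ℕ) (ζ₁ : Z) (ξ₂ : Ξ) (j : ℕ) : ℝ :=
  cs (crb b (scb L pos b ξ₂)) (1 / 2 ^ b) (hpl a cz G Q ζ₁ (zx ξ₂) j)

/-- `R (b) ≥ R`: typical points of the sub-cube are within `2 ^ (-R)` of the zero set. -/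
def Th (D R : ℕ) (M : ℕ → ℝ) : Prop := ∃ j, 1 ≤ j ∧ j ≤ D ∧ 2 ^ (R * j) * M 0 ≤ M j

/-- `R (b) ≤ R`: typical points of the sub-cube are at distance at least `2 ^ (-R)`. -/
def Ft (D R : ℕ) (M : ℕ → ℝ) : Prop := ∀ j, 1 ≤ j → j ≤ D → M j ≤ 2 ^ (R * j) * M 0

/-- The Taylor coefficients of `h` at `y`, in the unit `2 ^ (-b)`. -/
noncomputable def tc (b : ℕ) (h : MvPolynomial (Fin n) ℝ) (y : Fin n → ℝ) (β : Fin n →₀ ℕ) : ℝ :=
  MvPolynomial.coeff β (shA h (fun _ => 1 / 2 ^ b) y)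

/-- The norm at the thickness of the grid `2 ^ (-L)` on the graph of `G` over a cube. -/
noncomputable def NB (D L : ℕ) (G : MvPolynomial (Fin n) ℝ)
    (P : MvPolynomial (Option (Fin n)) ℝ) (c : Fin n → ℝ) (s : ℝ) : ℝ :=
  ∑ j ∈ range (D + 1), (1 / 2 ^ L) ^ j * cs c s (gr G (dN j P))

/-- The passive coordinate up to the row `r` (leaf units). -/
def Nr (L : ℕ) (pos : Ξ → Option (Fin n) → ℕ) (r : ℕ) (ξ : Ξ) : ℕ := pos ξ none / 2 ^ (L - r)

/-- The base coordinates up to the row `r` (leaf units). -/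
def Yr (L : ℕ) (pos : Ξ → Option (Fin n) → ℕ) (r : ℕ) (ξ : Ξ) : Fin n → ℕ :=
  fun i => pos ξ (some i) / 2 ^ (L - r)

/-- The condition of the rows `(r', r]`: base coordinates up to `r`, passive coordinate up to
`r'`, and the side information. -/
def cnr (L : ℕ) (pos : Ξ → Option (Fin n) → ℕ) (wz : Ξ → β) (r' r : ℕ) (ξ : Ξ) :
    (Fin n → ℕ) × (ℕ × β) := (Yr L pos r ξ, (Nr L pos r' ξ, wz ξ))

/-- The entropy of the rows `(r', r]` of the passive coordinate. -/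
noncomputable def hrw [Fintype Ω] (p : Ω → ℝ) (x : Ω → Ξ) (L : ℕ)
    (pos : Ξ → Option (Fin n) → ℕ) (wz : Ξ → β) (r' r : ℕ) : ℝ :=
  CH p (fun ω => Nr L pos r (x ω)) (fun ω => cnr L pos wz r' r (x ω))

/-- The number of values of the rows `(r', r]` of the passive coordinate, given the base
coordinates up to `r`, is at most `exp h`. -/
def Sup (p : Ω → ℝ) (x : Ω → Ξ) (L : ℕ) (pos : Ξ → Option (Fin n) → ℕ) (wz : Ξ → β)
    (r' r : ℕ) (h : ℝ) : Prop :=
  ∀ ω, 0 < p ω → ∃ s : Finset ℕ, (s.card : ℝ) ≤ Real.exp h ∧ ∀ ω', 0 < p ω' →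
    cnr L pos wz r' r (x ω') = cnr L pos wz r' r (x ω) → Nr L pos r (x ω') ∈ s

/-- **Own-visibility** at the row `r`: a code `cd` of the leaf determines the leaf in its cube up
to `2 ^ (-r)`, and given the point up to the row `r'` and the side information its entropy is at
most `eo`. -/
def OV [Fintype Ω] (p : Ω → ℝ) (x : Ω → Ξ) (L : ℕ) (pos : Ξ → Option (Fin n) → ℕ) (wz : Ξ → β)
    (zx : Ξ → Z) (G : Z → MvPolynomial (Fin n) ℝ) (r r' : ℕ) (eo : ℝ) : Prop :=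
  ∃ (W : Type) (cd : Z → W),
    (∀ ω ω', 0 < p ω → 0 < p ω' → (∀ o, pos (x ω) o / 2 ^ L = pos (x ω') o / 2 ^ L) →
      cd (zx (x ω)) = cd (zx (x ω')) →
      ∀ y ∈ cube (fun _ => 0) 1, |MvPolynomial.eval y (G (zx (x ω))) -
        MvPolynomial.eval y (G (zx (x ω')))| ≤ 1 / 2 ^ r) ∧
    CH p (fun ω => cd (zx (x ω)))
      (fun ω => (Yr L pos r' (x ω), (Nr L pos r' (x ω), wz (x ω)))) ≤ eo

/-- **Depth** of the polynomials `Q` of the first leaf at the grid cell of the second point (the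
conclusion of DEP). -/
def Depth {Λ : Type} [Fintype Ω] (a L D : ℕ) (p : Ω → ℝ) (lam : Ω → Λ) (x : Ω → Ξ)
    (pos : Ξ → Option (Fin n) → ℕ) (zx : Ξ → Z) (cz : Z → Option (Fin n) → ℕ)
    (G : Z → MvPolynomial (Fin n) ℝ) (Q : Z → MvPolynomial (Option (Fin n)) ℝ) (lm c : ℝ) :
    Prop :=
  ∀ η : ℝ, 0 < η → Pe (dbl p lam) (fun v => ¬ ∃ j, 1 ≤ j ∧ j ≤ D ∧
    2 ^ (L * (j - 1)) * Mj a L pos zx cz G Q L (zx (x v.1)) (x v.2) 0 ≤
      Real.exp (c / η) * lm * Mj a L pos zx cz G Q L (zx (x v.1)) (x v.2) j) ≤ η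

end Pool.KJ
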