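import Pool.Agent.H72.KJ.Asm5
import Pool.Agent.H4.KJ.CNT5
import Pool.Agent.H4.KJ.NEA
import Pool.Agent.H32.KJ.RTS
import Pool.Agent.H49.KJ.Typ
import Pool.Agent.H54.KJ.Pure
import Pool.Agent.H70.KJ.Dif
import Pool.Agent.H74.KJ.SLC

/-!
# LEMMA J, row J5
-/

set_option autoImplicit false

namespace Pool.KJ

/-- **(J5)** -/
theorem j5_thm : J5Stmt :=
  j5_of (cnt5_of Pool.KJ74.slc_thm dif_thm tcb_thm) (Pool.Agent.H32.KJ.rts_thm nea_thm)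
    Pool.KJ.Typ.typ_thm

end Pool.KJ
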