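import Pool.Agent.H72.KJ.Stmts

/-!
# LEMMA J: the step with the implicit equation of the label

The label carries a polynomial `Rp` of bounded degree, in the coordinates of the long window, with
`|Rp| ≤ 2 ^ (q - (a + L)) |∂ Rp|` at the samples (`∂` in the passive direction).
-/

set_option autoImplicit false

namespace Pool.KJ

open Finset Real
open Pool.Agent.H49.Ent Pool.Agent.H32.Dense Pool.STK Pool.KAF Pool.KAL Pool.KST Pool.KS3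

/-- **(J2R)** `J2` with the implicit equation `Rp` of the label.
Small difference: the closed label at the precision of the row `r₂` (`q` grid digits
are lost). `Q` are any polynomials of degree at most `D`; `i₀` is the time coordinate. -/
def J2RStmt : Prop :=
  ∀ (n D u : ℕ) (C₀ : ℝ), 1 ≤ n → 1 ≤ C₀ → ∃ Cq Cc : ℕ, 1 ≤ Cq ∧ 1 ≤ Cc ∧
    ∀ s k₀ E : ℕ, 1 ≤ E → ∃ M₀ : ℕ, ∀ M ≥ M₀,
    ∃ (η₁ : ℝ) (κ₀ N₀ m₀ : ℕ), 0 < η₁ ∧ 1 ≤ κ₀ ∧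
    ∀ (m e₀ L r₂ : ℕ) (Ω Λ Ξ Z β : Type) [Fintype Ω] (p : Ω → ℝ) (lam : Ω → Λ)
      (x : Ω → Ξ) (T : Ξ → ℕ) (pos : Ξ → Option (Fin n) → ℕ) (A B : Λ → Option (Fin n) → ℝ)
      (zx : Ξ → Z) (zl : Λ → ℕ → Z) (cz : Z → Option (Fin n) → ℕ)
      (G : Z → MvPolynomial (Fin n) ℝ) (wz : Z → β) (wl : Λ → β) (γ : ℕ) (δ ε e₁ e₃ : ℝ)
      (e : Ξ → ℝ) (Q : Z → MvPolynomial (Option (Fin n)) ℝ) (i₀ : Fin n),
      m₀ ≤ m → e₀ = M * m → m ∣ L → L ≤ E * e₀ → m ∣ r₂ → r₂ + m ≤ L → L ≤ r₂ + s * e₀ →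
      e₁ ≤ η₁ * e₀ → e₃ ≤ η₁ * e₀ → γ ≤ η₁ * e₀ → ε ≤ η₁ →
      StepH n (3 * e₀) L C₀ k₀ κ₀ γ N₀ δ ε e₁ e₃ p lam x T pos A B zx zl cz G e →
      (∀ ω, 0 < p ω → ¬ Bad (G (zx (x ω))) (fun _ => 0) 1 D (2 ^ (u * e₀) / 2 ^ L)) →
      (∀ ω, pos (x ω) (some i₀) = T (x ω)) →
      (∀ ω, 0 < p ω → wz (zx (x ω)) = wl (lam ω)) →
      (((3 * e₀ + L : ℕ) : ℝ) * Real.log 2 - CH p (fun ω => T (x ω)) lam ≤ η₁ * e₀) →
      CH p x (fun ω => (pos (x ω), wz (zx (x ω)))) ≤ (n + 1) * e₀ →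
      OV p x L pos (fun ξ => wz (zx ξ)) zx G r₂ (r₂ + m) (η₁ * e₀) →
      (∀ ζ, Q ζ ≠ 0 ∧ (Q ζ).totalDegree ≤ D) →
      Pe (dbl p lam) (fun v =>
        ¬ Th D r₂ (Mj (3 * e₀) L pos zx cz G Q 0 (zx (x v.1)) (x v.2))) ≤ 1 / 16 →
      ∃ (Y : Type) (y : Z → Y) (sl : Λ → Option Y) (q : ℕ) (Sc : (Fin n → ℕ) × Y → Finset ℕ)
        (Rp : Y → MvPolynomial (Option (Fin n)) ℝ),
        q ≤ (Cq + s) * e₀ ∧ (∀ g, (Sc g).card ≤ Cc) ∧ (∀ g, (Rp g).totalDegree ≤ Cc) ∧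
        1 / (Cc : ℝ) ≤ Pe p (fun ω => some (y (zx (x ω))) = sl (lam ω) ∧
          pos (x ω) none / 2 ^ q ∈ Sc (bas pos (x ω), y (zx (x ω))) ∧
          MvPolynomial.eval (rp (2 ^ (3 * e₀ + L)) pos (x ω))
            (MvPolynomial.pderiv none (Rp (y (zx (x ω))))) ≠ 0 ∧
          2 ^ (3 * e₀ + L) * |MvPolynomial.eval (rp (2 ^ (3 * e₀ + L)) pos (x ω))
            (Rp (y (zx (x ω))))| ≤ 2 ^ q * |MvPolynomial.eval (rp (2 ^ (3 * e₀ + L)) pos (x ω))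
            (MvPolynomial.pderiv none (Rp (y (zx (x ω)))))|)

/-- **(JSTEPR)** The step with the implicit equation `Rp` of the label.
The step: hypotheses of `PARStmt` with the own-visibility of the rows which are not
saturated and the mean rate of the passive coordinate on the last `Cr e₀` rows instead of the
linear spread (`i₀` is the time coordinate). `c` = missing rate; `w` = quality of the saturated
rows (chosen by the user, at least `w₀`). From QDE, JC, JADD, J6, J2R. -/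
def JSTEPRStmt : Prop :=
  ∀ (n D u : ℕ) (C₀ : ℝ), 1 ≤ n → 1 ≤ C₀ → ∃ Dp : ℕ, ∀ c : ℝ, 0 < c → c ≤ 1 →
    ∃ w₀ : ℕ, ∀ w ≥ w₀,
    ∃ Cj Cr₀ Cc : ℕ, 1 ≤ Cr₀ ∧ 1 ≤ Cc ∧ ∀ Cr ≥ Cr₀, ∀ k₀ E : ℕ, 1 ≤ E → ∃ M₀ : ℕ, ∀ M ≥ M₀,
    ∃ (η₁ : ℝ) (κ₀ N₀ m₀ : ℕ), 0 < η₁ ∧ 1 ≤ κ₀ ∧
    ∀ (m e₀ L : ℕ) (Ω Λ Ξ Z β : Type) [Fintype Ω] (p : Ω → ℝ) (lam : Ω → Λ)
      (x : Ω → Ξ) (T : Ξ → ℕ) (pos : Ξ → Option (Fin n) → ℕ) (A B : Λ → Option (Fin n) → ℝ)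
      (zx : Ξ → Z) (zl : Λ → ℕ → Z) (cz : Z → Option (Fin n) → ℕ)
      (G : Z → MvPolynomial (Fin n) ℝ) (wz : Z → β) (wl : Λ → β) (γ : ℕ) (δ ε e₁ e₃ : ℝ)
      (e : Ξ → ℝ) (i₀ : Fin n),
      m₀ ≤ m → e₀ = M * m → m ∣ L → Cr * e₀ ≤ L → L ≤ E * e₀ →
      e₁ ≤ η₁ * e₀ → e₃ ≤ η₁ * e₀ → γ ≤ η₁ * e₀ → ε ≤ η₁ →
      StepH n (3 * e₀) L C₀ k₀ κ₀ γ N₀ δ ε e₁ e₃ p lam x T pos A B zx zl cz G e →
      (∀ ω, 0 < p ω → ¬ Bad (G (zx (x ω))) (fun _ => 0) 1 D (2 ^ (u * e₀) / 2 ^ L)) →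
      (∀ ω, pos (x ω) (some i₀) = T (x ω)) →
      (∀ ω, 0 < p ω → wz (zx (x ω)) = wl (lam ω)) →
      (((3 * e₀ + L : ℕ) : ℝ) * Real.log 2 - CH p (fun ω => T (x ω)) lam ≤ η₁ * e₀) →
      CH p x (fun ω => (pos (x ω), wz (zx (x ω)))) ≤ (n + 1) * e₀ →
      -- regular rows
      (∀ k k', k ≤ k' → m * k' ≤ L → Sup p x L pos (fun ξ => wz (zx ξ)) (m * k) (m * k')
        (hrw p x L pos (fun ξ => wz (zx ξ)) (m * k) (m * k') + η₁ * e₀)) →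
      -- own-visibility at the mesh rows which are not saturated
      (∀ k, m * (k + 1) ≤ L →
        OV p x L pos (fun ξ => wz (zx ξ)) zx G (m * k) (m * (k + 1)) (η₁ * e₀) ∨
        (1 - 1 / w) * (m * Real.log 2) ≤
          hrw p x L pos (fun ξ => wz (zx ξ)) (m * k) (m * (k + 1))) →
      -- the mean rate
      hrw p x L pos (fun ξ => wz (zx ξ)) (L - Cr * e₀) L ≤
        (1 - c) * (Cr * e₀ * Real.log 2) →
      ∃ (Y : Type) (y : Z → Y) (sl : Λ → Option Y) (q : ℕ) (Sc : (Fin n → ℕ) × Y → Finset ℕ)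
        (Rp : Y → MvPolynomial (Option (Fin n)) ℝ),
        q ≤ (Cr + Cj) * e₀ ∧ (∀ g, (Sc g).card ≤ Cc) ∧ (∀ g, (Rp g).totalDegree ≤ Dp) ∧
        1 / (Cc : ℝ) ≤ Pe p (fun ω => some (y (zx (x ω))) = sl (lam ω) ∧
          pos (x ω) none / 2 ^ q ∈ Sc (bas pos (x ω), y (zx (x ω))) ∧
          MvPolynomial.eval (rp (2 ^ (3 * e₀ + L)) pos (x ω))
            (MvPolynomial.pderiv none (Rp (y (zx (x ω))))) ≠ 0 ∧
          2 ^ (3 * e₀ + L) * |MvPolynomial.eval (rp (2 ^ (3 * e₀ + L)) pos (x ω))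
            (Rp (y (zx (x ω))))| ≤ 2 ^ q * |MvPolynomial.eval (rp (2 ^ (3 * e₀ + L)) pos (x ω))
            (MvPolynomial.pderiv none (Rp (y (zx (x ω)))))|)

end Pool.KJ
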