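import Pool.Agent.H72.KJ.Ent5

/-!
# LEMMA J, row J5: the entropy core, abstract form

`V` are the pairs of incidences, `pr` is the second one, `B` the event, `lab` the leaf, `sh` its
shape up to a precision, `t` the (random) scale, `Yc` the base coordinates, `NR`, `NP` rows of the
passive coordinate. If on the event the second point is near the zero set of a polynomial which
depends on the first leaf and on the shape, then the shape carries information, and this
information is visible in the rows of a fresh point of the second leaf.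
-/

set_option autoImplicit false

namespace Pool.KJ

open Finset Real
open Pool.Agent.H49.Ent Pool.Agent.H32.Dense Pool.STK

/-- The box of the points with a given cell. -/
def bxc {n : ℕ} (t : ℕ) (κ : Fin n → ℕ) : Finset (Fin n → ℕ) :=
  Fintype.piFinset fun i : Fin n => Ico (κ i * 2 ^ t) ((κ i + 1) * 2 ^ t)

theorem mem_bxc {n : ℕ} (t : ℕ) (u : Fin n → ℕ) (κ : Fin n → ℕ) :
    u ∈ bxc t κ ↔ ∀ i, u i / 2 ^ t = κ i := by
  unfold bxc
  rw [Fintype.mem_piFinset]
  refine forall_congr' fun i => ?_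
  rw [Finset.mem_Ico]
  have h2 : 0 < 2 ^ t := pow_pos (two_pos (α := ℕ)) t
  constructor
  · rintro ⟨h3, h4⟩
    refine le_antisymm ?_ ?_
    · exact Nat.lt_succ_iff.mp ((Nat.div_lt_iff_lt_mul h2).2 h4)
    · exact (Nat.le_div_iff_mul_le h2).2 h3
  · intro h
    rw [← h]
    refine ⟨Nat.div_mul_le_self _ _, ?_⟩
    have h3 := Nat.lt_div_mul_add (a := u i) h2
    rw [add_mul, one_mul]
    exact h3

theorem card_bxc {n : ℕ} (t : ℕ) (κ : Fin n → ℕ) : (bxc t κ).card = (2 ^ t) ^ n := by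
  unfold bxc
  rw [Fintype.card_piFinset]
  have : ∀ i : Fin n, (Ico (κ i * 2 ^ t) ((κ i + 1) * 2 ^ t)).card = 2 ^ t := by
    intro i
    rw [Nat.card_Ico, add_mul, one_mul, Nat.add_sub_cancel_left]
  rw [Finset.prod_congr rfl fun i _ => this i, Finset.prod_const, Finset.card_univ,
    Fintype.card_fin]

theorem log_card_bxc {n : ℕ} (t : ℕ) (κ : Fin n → ℕ) :
    Real.log ((bxc t κ).card) = n * (t * Real.log 2) := by
  rw [card_bxc]
  push_cast
  rw [← pow_mul, Real.log_pow]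
  push_cast
  ring

/-- The entropy of the base coordinates given the cell. -/
theorem CH_cell_le {Ω T : Type} [Fintype Ω] {n : ℕ} {p : Ω → ℝ} (hp : IsLaw p)
    (Y : Ω → Fin n → ℕ) (W : Ω → T) (τ : T → ℕ) (κ : T → Fin n → ℕ)
    (h : ∀ ω, 0 < p ω → ∀ i, Y ω i / 2 ^ τ (W ω) = κ (W ω) i) :
    CH p Y W ≤ Ex p (fun ω => n * (τ (W ω) * Real.log 2)) := by
  refine (CH_le_card hp.nonneg hp.sum_one Y W (fun w => bxc (τ w) (κ w)) fun ω hω => ?_).trans ?_
  · exact (mem_bxc _ _ _).2 (h ω hω)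
  · refine le_of_eq ?_
    congr 1
    funext ω
    exact log_card_bxc _ _

open Classical in
/-- **J5, abstract form.** -/
theorem j5_core {V Ω Z ζ W β D : Type} [Fintype V] [Fintype Ω] {p : Ω → ℝ} {q' : V → ℝ}
    (hp : IsLaw p) (hq' : IsLaw q') {pr : V → Ω} (hm : Marg q' p pr) (B : V → Prop)
    (hB : 0 < law q' B True) {n a L : ℕ} (Yc : Ω → Fin n → ℕ) (hY : ∀ ω i, Yc ω i < 2 ^ (a + L))
    (lab : Ω → Z) (cl : Z → Fin n → ℕ) (hcl : ∀ ω i, Yc ω i / 2 ^ L = cl (lab ω) i)
    (Z1 : V → ζ) (t : V → ℕ) (Sc : Finset ℕ) (hSc : ∀ b ∈ Sc, b ≤ L)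
    (ht : ∀ v, 0 < q' v → B v → t v ∈ Sc)
    (sh : Z → W) (NR NP : Ω → ℕ) (Yp : Ω → D) (hYp : ∀ ω ω', Yc ω = Yc ω' → Yp ω = Yp ω')
    (wz : Z → β)
    (hwz : ∀ v v', 0 < q' v → 0 < q' v' → Z1 v = Z1 v' → wz (lab (pr v)) = wz (lab (pr v')))
    (ls : ζ → (Fin n → ℕ) → Finset ℕ) (A : V → Finset (Fin n → ℕ))
    {δ ef eo g h c₁ c₂ lf : ℝ}
    (hδ : n * (((a + L : ℕ) : ℝ) * Real.log 2) - CH q' (fun v => Yc (pr v)) Z1 ≤ δ)
    (hef : n * (L * Real.log 2) - CH p Yc lab ≤ ef)
    (hcnt : CH (cond q' B True) (fun v => Yc (pr v))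
      (fun v => (sh (lab (pr v)), (Z1 v, t v, fun i => Yc (pr v) i / 2 ^ t v))) ≤
        Ex (cond q' B True) (fun v => n * (t v * Real.log 2)) - g)
    (hov : CH p (fun ω => sh (lab ω)) (fun ω => (Yp ω, (NP ω, wz (lab ω)))) ≤ eo)
    (hsup : ∀ ω, 0 < p ω → ∃ s : Finset ℕ, (s.card : ℝ) ≤ Real.exp h ∧ ∀ ω', 0 < p ω' →
      Yp ω' = Yp ω → NR ω' = NR ω → wz (lab ω') = wz (lab ω) → NP ω' ∈ s)
    (hls : ∀ v ω, 0 < q' v → B v → 0 < p ω → lab ω = lab (pr v) →
      (∀ i, Yc ω i / 2 ^ t v = Yc (pr v) i / 2 ^ t v) → Yc ω ∉ A v → NR ω ∈ ls (Z1 v) (Yc ω))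
    (hlc : ∀ z u, ((ls z u).card : ℝ) ≤ Real.exp c₁) (hc₁ : 0 ≤ c₁)
    (Nm : ℕ) (hNR : ∀ ω, NR ω < Nm) (hNm : (Nm : ℝ) ≤ Real.exp c₂) (hc₂ : 0 ≤ c₂)
    (hA : ∀ v, 0 < q' v → B v → ((A v).card : ℝ) ≤ Real.exp (-lf) * ((2 : ℝ) ^ t v) ^ n)
    (hlf : 0 < lf) :
    g ≤ h + (δ + Real.log 2) / law q' B True + Real.log Sc.card +
      Sc.card * (ef + eo) / law q' B True + Real.log 2 + c₁ +
      (Sc.card * ef / law q' B True + Real.log 2) / lf * c₂ := by
  have hp0 := hp.nonneg
  have hq'0 := hq'.nonneg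
  have hl2 : 0 < Real.log 2 := Real.log_pos (by norm_num)
  obtain ⟨b₀, hb₀⟩ : ∃ b₀, b₀ = law q' B True := ⟨_, rfl⟩
  rw [← hb₀] at hB ⊢
  obtain ⟨q, hq⟩ : ∃ q, q = cond q' B True := ⟨_, rfl⟩
  rw [← hq] at hcnt
  have hqL : IsLaw q := by
    rw [hq]
    exact ⟨cond_nonneg hq'0 B True, sum_cond q' B (by rw [← hb₀]; exact hB.ne')⟩
  have hq0 := hqL.nonneg
  have hqpos : ∀ v, 0 < q v → 0 < q' v ∧ B v := by
    intro v hv
    rw [hq] at hv
    have := (cond_pos_iff hq'0 B True v).mp hv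
    exact ⟨this.1, by rw [this.2]; trivial⟩
  have hqle : ∀ v, q v ≤ 1 / b₀ * q' v := by
    intro v
    rw [hq, hb₀]
    unfold Pool.Agent.H49.Ent.cond
    split_ifs
    · rw [div_eq_mul_inv, one_div, mul_comm]
    · have := hq'0 v
      rw [← hb₀]
      positivity
  have hM0 : (0 : ℝ) ≤ 1 / b₀ := by positivity
  -- names
  set Y2 : V → Fin n → ℕ := fun v => Yc (pr v) with hY2
  set ce : V → Fin n → ℕ := fun v i => Yc (pr v) i / 2 ^ t v with hce
  set κ : ℕ → Ω → Z × (Fin n → ℕ) := fun b ω => (lab ω, fun i => Yc ω i / 2 ^ b) with hκ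
  set K : V → Z × (Fin n → ℕ) := fun v => κ (t v) (pr v) with hK
  -- step a
  have sa : n * (((a + L : ℕ) : ℝ) * Real.log 2) - (δ + Real.log 2) / b₀ ≤ CH q Y2 Z1 := by
    have g1 := CH_two hq'0 Y2 Z1 B
    have g2 : CH q' Y2 Z1 ≤ Real.log 2 + CH q' Y2 (fun v => (Z1 v, decide (B v))) := by
      have k1 := CH_le_add hq'0 Y2 (fun v => decide (B v)) Z1
      have k2 := CH_dec_le hq' (fun v => decide (B v)) Z1
      have k3 : CH q' Y2 (fun v => (decide (B v), Z1 v)) =
          CH q' Y2 (fun v => (Z1 v, decide (B v))) := by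
        refine CH_congr hq'0 ?_ ?_ ?_ ?_
        · exact fun _ _ _ _ h => (Prod.ext_iff.mp h).1
        · exact fun _ _ _ _ h => (Prod.ext_iff.mp h).1
        · intro ω ω' _ _ h
          simp only [Prod.mk.injEq] at h ⊢
          tauto
        · intro ω ω' _ _ h
          simp only [Prod.mk.injEq] at h ⊢
          tauto
      linarith only [k1, k2, k3]
    have g3 : law q' B False * CH (cond q' B False) Y2 Z1 ≤
        law q' B False * (n * (((a + L : ℕ) : ℝ) * Real.log 2)) := by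
      rcases (law_nonneg hq'0 B False).eq_or_lt with h0 | h0
      · rw [← h0, zero_mul, zero_mul]
      · refine mul_le_mul_of_nonneg_left ?_ h0.le
        have hL : IsLaw (cond q' B False) := ⟨cond_nonneg hq'0 B False, sum_cond q' B h0.ne'⟩
        refine (CH_cell_le hL Y2 Z1 (fun _ => a + L) (fun _ _ => 0) fun v _ i => ?_).trans
          (le_of_eq (Ex_const hL.sum_one _))
        exact Nat.div_eq_of_lt (hY _ _)
    have g4 : law q' B False = 1 - b₀ := by
      have k := law_mul_Ex hq'0 B (fun _ => (1 : ℝ))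
      have k2 : b₀ + law q' B False = 1 := by
        rw [hb₀, ← hq'.sum_one]
        unfold law
        rw [← Finset.sum_add_distrib]
        refine Finset.sum_congr rfl fun v _ => ?_
        by_cases hv : B v
        · have e1 : B v = True := by simpa using hv
          simp [e1]
        · have e1 : B v = False := by simpa using hv
          simp [e1]
      linarith only [k2]
    rw [g4] at g3
    rw [← hq, ← hb₀] at g1
    rw [g4] at g1
    have g5 : b₀ * (n * (((a + L : ℕ) : ℝ) * Real.log 2)) - (δ + Real.log 2) ≤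
        b₀ * CH q Y2 Z1 := by
      nlinarith only [hδ, g1, g2, g3]
    have g6 : b₀ * (n * (((a + L : ℕ) : ℝ) * Real.log 2) - (δ + Real.log 2) / b₀) ≤
        b₀ * CH q Y2 Z1 := by
      have : b₀ * (n * (((a + L : ℕ) : ℝ) * Real.log 2) - (δ + Real.log 2) / b₀) =
          b₀ * (n * (((a + L : ℕ) : ℝ) * Real.log 2)) - (δ + Real.log 2) := by
        field_simp
      rw [this]
      exact g5
    exact le_of_mul_le_mul_left g6 hB
  -- step b
  have sb : CH q (fun v => (ce v, t v)) Z1 ≤ Real.log Sc.card +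
      Ex q (fun v => n * (((a + L : ℕ) - t v : ℝ) * Real.log 2)) := by
    have g1 : CH q (fun v => (ce v, t v)) Z1 = CH q t Z1 + CH q ce (fun v => (t v, Z1 v)) :=
      CH_chain hq0 ce t Z1
    have g2 : CH q t Z1 ≤ Real.log Sc.card := by
      refine (CH_le_card hq0 hqL.sum_one t Z1 (fun _ => Sc) fun v hv =>
        ht v (hqpos v hv).1 (hqpos v hv).2).trans (le_of_eq (Ex_const hqL.sum_one _))
    have g3 : CH q ce (fun v => (t v, Z1 v)) ≤
        Ex q (fun v => n * (((a + L : ℕ) - t v : ℝ) * Real.log 2)) := by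
      have k1 := CH_le_card hq0 hqL.sum_one ce (fun v => (t v, Z1 v))
        (fun w => bxc (a + L - w.1) (fun _ => 0)) (by
          intro v hv
          rw [mem_bxc]
          intro i
          change Yc (pr v) i / 2 ^ t v / 2 ^ (a + L - t v) = 0
          have h1 := hSc _ (ht v (hqpos v hv).1 (hqpos v hv).2)
          rw [Nat.div_div_eq_div_mul, ← pow_add,
            show t v + (a + L - t v) = a + L by omega]
          exact Nat.div_eq_of_lt (hY _ _))
      refine k1.trans (Ex_mono hq0 fun v hv => ?_)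
      have h1 := hSc _ (ht v (hqpos v hv).1 (hqpos v hv).2)
      rw [log_card_bxc, Nat.cast_sub (by omega : t v ≤ a + L)]
    linarith only [g1, g2, g3]
  -- step c
  have sc : Ex q (fun v => n * (t v * Real.log 2)) - (δ + Real.log 2) / b₀ -
      Real.log Sc.card ≤ CH q Y2 (fun v => (Z1 v, t v, ce v)) := by
    have g1 := CH_le_add hq0 Y2 (fun v => (ce v, t v)) Z1
    have g2 : CH q Y2 (fun v => ((ce v, t v), Z1 v)) = CH q Y2 (fun v => (Z1 v, t v, ce v)) := by
      refine CH_congr hq0 ?_ ?_ ?_ ?_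
      · exact fun _ _ _ _ h => (Prod.ext_iff.mp h).1
      · exact fun _ _ _ _ h => (Prod.ext_iff.mp h).1
      · intro ω ω' _ _ h
        simp only [Prod.mk.injEq] at h ⊢
        tauto
      · intro ω ω' _ _ h
        simp only [Prod.mk.injEq] at h ⊢
        tauto
    have g3 : Ex q (fun v => n * (((a + L : ℕ) - t v : ℝ) * Real.log 2)) =
        n * (((a + L : ℕ) : ℝ) * Real.log 2) - Ex q (fun v => n * (t v * Real.log 2)) := by
      have : (fun v => (n : ℝ) * ((((a + L : ℕ) : ℝ) - t v) * Real.log 2)) =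
          fun v => n * (((a + L : ℕ) : ℝ) * Real.log 2) - n * (t v * Real.log 2) := by
        funext v
        ring
      rw [this, Ex_sub, Ex_const hqL.sum_one]
    linarith only [sa, sb, g1, g2, g3]
  -- step d
  set s2 : V → W := fun v => sh (lab (pr v)) with hs2
  have sd : g - (δ + Real.log 2) / b₀ - Real.log Sc.card ≤
      CH q s2 (fun v => (Z1 v, t v, ce v)) := by
    have g1 := CH_le_add hq0 Y2 s2 (fun v => (Z1 v, t v, ce v))
    linarith only [hcnt, sc, g1]
  -- the fresh point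
  have hKpos : ∀ v, 0 < q v → K v = κ (t v) (pr v) := fun v _ => rfl
  have htS : ∀ v, 0 < q v → t v ∈ Sc := fun v hv => ht v (hqpos v hv).1 (hqpos v hv).2
  have hl : ∀ v, 0 < q v → 0 < law p (κ (t v)) (K v) := by
    intro v hv
    exact law_pos hp0 _ (hm.pos hq'0 (hqpos v hv).1)
  obtain ⟨r, hr⟩ : ∃ r, r = frs q p κ t K := ⟨_, rfl⟩
  have hrL : IsLaw r := by
    rw [hr]
    exact frs_law hqL hp0 hl
  have hr0 := hrL.nonneg
  have hrm : Marg r q (fun w => w.1) := by
    rw [hr]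
    exact frs_marg hq0 hl
  have hrpos : ∀ w, 0 < r w → 0 < q w.1 ∧ 0 < p w.2 ∧ lab w.2 = lab (pr w.1) ∧
      ∀ i, Yc w.2 i / 2 ^ t w.1 = Yc (pr w.1) i / 2 ^ t w.1 := by
    intro w hw
    rw [hr] at hw
    obtain ⟨h1, h2, h3⟩ := frs_pos hq0 hp0 hw
    have h4 : lab w.2 = lab (pr w.1) ∧ (fun i => Yc w.2 i / 2 ^ t w.1) =
        fun i => Yc (pr w.1) i / 2 ^ t w.1 := Prod.ext_iff.mp h3
    exact ⟨h1, h2, h4.1, fun i => congrFun h4.2 i⟩
  set Y3 : V × Ω → Fin n → ℕ := fun w => Yc w.2 with hY3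
  -- step e
  have se : Ex q (fun v => n * (t v * Real.log 2)) - 1 / b₀ * (Sc.card * ef) ≤
      CH r Y3 (fun w => w.1) := by
    rw [hr]
    refine frs_full hqL hp hm hq'0 hM0 hqle hKpos Sc htS Yc (fun b => n * (b * Real.log 2))
      ?_ ?_
    · intro b _ ω hω
      have hlw : 0 < law p (κ b) (κ b ω) := law_pos hp0 _ hω
      have hcL : IsLaw (cond p (κ b) (κ b ω)) :=
        ⟨cond_nonneg hp0 _ _, sum_cond p _ hlw.ne'⟩
      refine (H_le_log_card hcL.nonneg hcL.sum_one Yc (bxc b (fun i => Yc ω i / 2 ^ b))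
        fun ω' hω' => ?_).trans (le_of_eq (log_card_bxc _ _))
      have h1 := ((cond_pos_iff hp0 _ _ ω').mp hω').2
      rw [mem_bxc]
      exact fun i => congrFun (Prod.ext_iff.mp h1).2 i
    · intro b hb
      have g1 := CH_chain hp0 Yc (fun ω => fun i => Yc ω i / 2 ^ b) lab
      have g2 : CH p Yc lab ≤ CH p (fun ω => (Yc ω, fun i => Yc ω i / 2 ^ b)) lab :=
        CH_mono_left hp0 fun ω ω' _ _ h => (Prod.ext_iff.mp (Prod.ext_iff.mp h).1).1
      have g3 : CH p (fun ω => fun i => Yc ω i / 2 ^ b) lab ≤ n * (((L : ℝ) - b) * Real.log 2) := by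
        refine (CH_le_card hp0 hp.sum_one _ lab (fun z => bxc (L - b) (cl z)) fun ω _ => ?_).trans
          ?_
        · rw [mem_bxc]
          intro i
          change Yc ω i / 2 ^ b / 2 ^ (L - b) = cl (lab ω) i
          rw [← hcl, Nat.div_div_eq_div_mul, ← pow_add,
            show b + (L - b) = L by have := hSc b hb; omega]
        · refine le_of_eq ?_
          have : (fun ω : Ω => Real.log ((bxc (L - b) (cl (lab ω))).card)) =
              fun _ => n * (((L : ℝ) - b) * Real.log 2) := by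
            funext ω
            rw [log_card_bxc, Nat.cast_sub (hSc b hb)]
          rw [this, Ex_const hp.sum_one]
      have g4 : CH p Yc (fun ω => ((fun i => Yc ω i / 2 ^ b), lab ω)) = CH p Yc (κ b) := by
        refine CH_congr hp0 ?_ ?_ ?_ ?_
        · exact fun _ _ _ _ h => (Prod.ext_iff.mp h).1
        · exact fun _ _ _ _ h => (Prod.ext_iff.mp h).1
        · intro ω ω' _ _ h
          simp only [hκ, Prod.mk.injEq] at h ⊢
          tauto
        · intro ω ω' _ _ h
          simp only [hκ, Prod.mk.injEq] at h ⊢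
          tauto
      linarith only [hef, g1, g2, g3, g4]
  -- step f
  have sf : g - (δ + Real.log 2) / b₀ - Real.log Sc.card - 1 / b₀ * (Sc.card * ef) ≤
      CH r (fun w => s2 w.1) (fun w => (Y3 w, (Z1 w.1, t w.1, ce w.1))) := by
    have g1 := CH_chain hr0 (fun w => s2 w.1) Y3 (fun w => (Z1 w.1, t w.1, ce w.1))
    have g2 := CH_chain hr0 Y3 (fun w => s2 w.1) (fun w => (Z1 w.1, t w.1, ce w.1))
    have g3 : CH r (fun w => (s2 w.1, Y3 w)) (fun w => (Z1 w.1, t w.1, ce w.1)) =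
        CH r (fun w => (Y3 w, s2 w.1)) (fun w => (Z1 w.1, t w.1, ce w.1)) := by
      refine CH_congr hr0 ?_ ?_ (fun _ _ _ _ h => h) (fun _ _ _ _ h => h)
      · intro ω ω' _ _ h
        simp only [Prod.mk.injEq] at h ⊢
        tauto
      · intro ω ω' _ _ h
        simp only [Prod.mk.injEq] at h ⊢
        tauto
    have g4 : CH r (fun w => s2 w.1) (fun w => (Z1 w.1, t w.1, ce w.1)) =
        CH q s2 (fun v => (Z1 v, t v, ce v)) :=
      hrm.CH s2 (fun v => (Z1 v, t v, ce v))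
    have g5 : CH r Y3 (fun w => w.1) ≤
        CH r Y3 (fun w => (s2 w.1, (Z1 w.1, t w.1, ce w.1))) :=
      CH_mono_cond hr0 fun w w' _ _ h => by
        have h' : w.1 = w'.1 := h
        simp only [h']
    have g6 : CH r Y3 (fun w => (Z1 w.1, t w.1, ce w.1)) ≤
        Ex q (fun v => n * (t v * Real.log 2)) := by
      refine (CH_cell_le hrL Y3 (fun w => (Z1 w.1, t w.1, ce w.1)) (fun u => u.2.1)
        (fun u => u.2.2) fun w hw i => ?_).trans (le_of_eq ?_)
      · exact (hrpos w hw).2.2.2 i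
      · exact hrm.ex (fun v => (n : ℝ) * (t v * Real.log 2))
    linarith only [sd, se, g1, g2, g3, g4, g5, g6]
  -- step g
  have sg : CH r (fun w => s2 w.1) (fun w => (NP w.2, (Y3 w, (Z1 w.1, t w.1, ce w.1)))) ≤
      1 / b₀ * Sc.card * eo := by
    have g1 : CH r (fun w => s2 w.1) (fun w => (NP w.2, (Y3 w, (Z1 w.1, t w.1, ce w.1)))) ≤
        CH r (fun w => sh (lab w.2)) (fun w => (Yp w.2, (NP w.2, wz (lab w.2)))) := by
      refine (le_of_eq ?_).trans (CH_mono_cond hr0 (X := fun w => sh (lab w.2))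
        (W' := fun w => (NP w.2, (Y3 w, (Z1 w.1, t w.1, ce w.1)))) ?_)
      · refine CH_congr hr0 ?_ ?_ (fun _ _ _ _ h => h) (fun _ _ _ _ h => h)
        · intro w w' hw hw' h
          have h1 : s2 w.1 = s2 w'.1 := (Prod.ext_iff.mp h).1
          change sh (lab w.2) = sh (lab w'.2)
          rw [(hrpos w hw).2.2.1, (hrpos w' hw').2.2.1]
          exact h1
        · intro w w' hw hw' h
          have h1 : sh (lab w.2) = sh (lab w'.2) := (Prod.ext_iff.mp h).1
          change sh (lab (pr w.1)) = sh (lab (pr w'.1))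
          rw [← (hrpos w hw).2.2.1, ← (hrpos w' hw').2.2.1]
          exact h1
      · intro w w' hw hw' h
        simp only [Prod.mk.injEq] at h ⊢
        refine ⟨hYp _ _ h.2.1, h.1, ?_⟩
        rw [(hrpos w hw).2.2.1, (hrpos w' hw').2.2.1]
        exact hwz _ _ (hqpos _ (hrpos w hw).1).1 (hqpos _ (hrpos w' hw').1).1 h.2.2.1
    have g2 : CH r (fun w => sh (lab w.2)) (fun w => (Yp w.2, (NP w.2, wz (lab w.2)))) ≤
        1 / b₀ * Sc.card * CH p (fun ω => sh (lab ω)) (fun ω => (Yp ω, (NP ω, wz (lab ω)))) := by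
      rw [hr]
      exact CH_frs_snd hqL hp hm hq'0 hM0 hqle hKpos Sc htS (fun ω => sh (lab ω))
        (fun ω => (Yp ω, (NP ω, wz (lab ω))))
    refine g1.trans (g2.trans ?_)
    exact mul_le_mul_of_nonneg_left hov (by positivity)
  -- step h
  have shp : CH r (fun w => NP w.2) (fun w => (NR w.2, (Y3 w, (Z1 w.1, t w.1, ce w.1)))) ≤ h := by
    refine CH_sup hrL _ _ fun w hw => ?_
    obtain ⟨s, hs1, hs2'⟩ := hsup w.2 (hrpos w hw).2.1
    refine ⟨s, hs1, fun w' hw' he => ?_⟩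
    simp only [Prod.mk.injEq] at he
    refine hs2' w'.2 (hrpos w' hw').2.1 (hYp _ _ he.2.1) he.1 ?_
    rw [(hrpos w hw).2.2.1, (hrpos w' hw').2.2.1]
    exact hwz _ _ (hqpos _ (hrpos w' hw').1).1 (hqpos _ (hrpos w hw).1).1 he.2.2.1
  -- the atypical points
  have hat : (∑ w, if Y3 w ∈ A w.1 then r w else 0) ≤
      (1 / b₀ * (Sc.card * ef) + Real.log 2) / lf := by
    have g1 := gib hrL Y3 (fun w => w.1) (fun v => bxc (t v) (ce v)) A lf
      (fun w hw => by
        rw [mem_bxc]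
        exact (hrpos w hw).2.2.2)
      (fun w hw => by
        rw [card_bxc]
        push_cast
        exact hA _ (hqpos _ (hrpos w hw).1).1 (hqpos _ (hrpos w hw).1).2)
    have g2 : Ex r (fun w => Real.log ((bxc (t w.1) (ce w.1)).card)) =
        Ex q (fun v => n * (t v * Real.log 2)) := by
      rw [← hrm.ex (fun v => (n : ℝ) * (t v * Real.log 2))]
      congr 1
      funext w
      exact log_card_bxc _ _
    rw [le_div_iff₀ hlf]
    rw [g2] at g1
    have g3 : lf * (∑ w, if Y3 w ∈ A w.1 then r w else 0) ≤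
        Ex q (fun v => n * (t v * Real.log 2)) - CH r Y3 (fun w => w.1) + Real.log 2 := by
      convert g1
    linarith only [se, g3]
  -- step i
  have si : CH r (fun w => NR w.2) (fun w => (Y3 w, (Z1 w.1, t w.1, ce w.1))) ≤
      Real.log 2 + c₁ + (1 / b₀ * (Sc.card * ef) + Real.log 2) / lf * c₂ := by
    have g1 := CH_list hrL (fun w => NR w.2) (fun w => (Y3 w, (Z1 w.1, t w.1, ce w.1)))
      (fun w => Y3 w ∈ A w.1) (fun u => ls u.2.1 u.1) (fun _ => range Nm) hc₁
      (c₂ := c₂)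
      (fun w hw hnA => by
        obtain ⟨h1, h2, h3, h4⟩ := hrpos w hw
        exact ⟨hls w.1 w.2 (hqpos _ h1).1 (hqpos _ h1).2 h2 h3 h4 hnA, hlc _ _⟩)
      (fun w hw _ => ⟨Finset.mem_range.2 (hNR _), by rw [Finset.card_range]; exact hNm⟩)
    refine g1.trans (add_le_add le_rfl (mul_le_mul_of_nonneg_right ?_ hc₂))
    refine le_trans (le_of_eq (Finset.sum_congr rfl fun w _ => ?_)) hat
    by_cases h : Y3 w ∈ A w.1
    · simp [h]
    · simp [h]
  -- conclusion
  have sj := CH_le_add hr0 (fun w => s2 w.1) (fun w => NP w.2)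
    (fun w => (Y3 w, (Z1 w.1, t w.1, ce w.1)))
  have sk := CH_le_add hr0 (fun w => NP w.2) (fun w => NR w.2)
    (fun w => (Y3 w, (Z1 w.1, t w.1, ce w.1)))
  have e1 : Sc.card * (ef + eo) / b₀ = 1 / b₀ * (Sc.card * ef) + 1 / b₀ * Sc.card * eo := by
    ring
  have e2 : Sc.card * ef / b₀ = 1 / b₀ * (Sc.card * ef) := by ring
  rw [e1, e2]
  linarith only [sf, sg, shp, si, sj, sk]

end Pool.KJ
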