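import Pool.Agent.H72.KJ.J5S
import Pool.Agent.H72.KJ.Core5
import Pool.Agent.H4.KJ.JCA
import Pool.Agent.H4.KJ.J1

/-!
# LEMMA J, row J5: assembly
-/

set_option autoImplicit false

namespace Pool.KJ

open Finset Real
open Pool.Agent.H49.Ent Pool.Agent.H32.Dense Pool.STK Pool.KAF Pool.KAL Pool.KST Pool.KS3

theorem Pe_eq_law {V : Type} [Fintype V] (q : V → ℝ) (B : V → Prop) :
    Pe q B = law q B True := by
  classical
  unfold Pe law
  refine Finset.sum_congr rfl fun v _ => ?_
  by_cases h : B v
  · simp [h]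
  · simp [h]

/-- Cells of a cell. -/
theorem scb_of_bas {n : ℕ} {Ξ : Type} {pos : Ξ → Option (Fin n) → ℕ} {L b : ℕ} (hb : b ≤ L)
    {ξ ξ' : Ξ} (h : ∀ i, bas pos ξ i / 2 ^ (L - b) = bas pos ξ' i / 2 ^ (L - b)) :
    scb L pos b ξ = scb L pos b ξ' := by
  have key : ∀ ζ : Ξ, ∀ i, scb L pos b ζ i = (bas pos ζ i / 2 ^ (L - b)) % 2 ^ b := by
    intro ζ i
    unfold scb posS bas
    obtain ⟨d, rfl⟩ := Nat.exists_eq_add_of_le hb
    rw [show b + d - b = d by omega, pow_add, mul_comm (2 ^ b) (2 ^ d), Nat.mod_mul_right_div_self]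
  funext i
  rw [key, key, h i]

/-- The atypical points of a cell are few. -/
theorem typ_card {n k L b : ℕ} {Ct θ lf : ℝ} (hCt : 1 ≤ Ct)
    (htyp : ∀ (h : MvPolynomial (Fin n) ℝ) (L b : ℕ) (κ : Fin n → ℕ) (θ : ℝ)
      (S : Finset (Fin n → ℕ)), h.totalDegree ≤ k → b ≤ L → 0 < θ → θ ≤ 1 →
      (∀ u ∈ S, (∀ i, u i / 2 ^ (L - b) = κ i) ∧
        |MvPolynomial.eval (fun i => (u i : ℝ) / 2 ^ L) h| < θ * cs (crb b κ) (1 / 2 ^ b) h) →
      (S.card : ℝ) ≤ Ct * (θ ^ ((1 : ℝ) / (k + 1)) + 1 / 2 ^ (L - b)) * (2 ^ (L - b)) ^ n)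
    (h : MvPolynomial (Fin n) ℝ) (hk : h.totalDegree ≤ k) (hb : b ≤ L) (hθ : 0 < θ)
    (hθ1 : θ ≤ 1) (h1 : lf * (k + 1) ≤ Real.log (1 / θ)) (h2 : lf ≤ (L - b : ℕ) * Real.log 2)
    (κ : Fin n → ℕ) (cl : Fin n → ℕ) (A : Finset (Fin n → ℕ))
    (hA : ∀ u ∈ A, (∀ i, u i / 2 ^ L = cl i) ∧ (∀ i, (u i % 2 ^ L) / 2 ^ (L - b) = κ i) ∧
      |MvPolynomial.eval (fun i => ((u i % 2 ^ L : ℕ) : ℝ) / 2 ^ L) h| <
        θ * cs (crb b κ) (1 / 2 ^ b) h) :
    (A.card : ℝ) ≤ Real.exp (-(lf - Real.log (2 * Ct))) * ((2 : ℝ) ^ (L - b)) ^ n := by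
  classical
  have hinj : Set.InjOn (fun (u : Fin n → ℕ) i => u i % 2 ^ L) (A : Set (Fin n → ℕ)) := by
    intro u hu u' hu' he
    funext i
    have e1 := congrFun he i
    have e2 := (hA u hu).1 i
    have e3 := (hA u' hu').1 i
    have d1 := Nat.div_add_mod (u i) (2 ^ L)
    have d2 := Nat.div_add_mod (u' i) (2 ^ L)
    simp only at e1
    rw [e2, e1] at d1
    rw [e3] at d2
    exact d1.symm.trans d2
  have hcard := Finset.card_image_of_injOn hinj
  have h3 := htyp h L b κ θ (A.image fun u i => u i % 2 ^ L) hk hb hθ hθ1 (by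
    intro u hu
    rw [Finset.mem_image] at hu
    obtain ⟨u', hu', rfl⟩ := hu
    exact ⟨(hA u' hu').2.1, (hA u' hu').2.2⟩)
  rw [hcard] at h3
  refine h3.trans (mul_le_mul_of_nonneg_right ?_ (by positivity))
  have hk1 : (0 : ℝ) < k + 1 := by positivity
  have g1 : θ ^ ((1 : ℝ) / (k + 1)) ≤ Real.exp (-lf) := by
    rw [Real.rpow_def_of_pos hθ]
    refine Real.exp_le_exp.2 ?_
    have e1 : Real.log (1 / θ) = -Real.log θ := by rw [one_div, Real.log_inv]
    rw [e1] at h1
    have e2 : Real.log θ * (1 / (k + 1)) = Real.log θ / (k + 1) := by ring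
    rw [e2, div_le_iff₀ hk1]
    linarith only [h1]
  have g2 : (1 : ℝ) / 2 ^ (L - b) ≤ Real.exp (-lf) := by
    have e1 : (2 : ℝ) ^ (L - b) = Real.exp ((L - b : ℕ) * Real.log 2) := by
      rw [← Real.log_pow, Real.exp_log (by positivity)]
    rw [e1, one_div, ← Real.exp_neg]
    exact Real.exp_le_exp.2 (by linarith only [h2])
  have g3 : Real.exp (-(lf - Real.log (2 * Ct))) = 2 * Ct * Real.exp (-lf) := by
    have : -(lf - Real.log (2 * Ct)) = Real.log (2 * Ct) + -lf := by ring
    rw [this, Real.exp_add, Real.exp_log (by linarith only [hCt])]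
  rw [g3]
  nlinarith only [g1, g2, hCt]


/-- **J5**, from the count, the list of rows and the typical points. -/
theorem j5_of (hCNT : CNT5Stmt) (hRTS : RTSStmt) (hTYP : TYPStmt) : J5Stmt := by
  classical
  intro n D C₀ hC₀ k₀
  obtain ⟨Cc, hCc, hcnt5⟩ := hCNT n D k₀ C₀ hC₀
  obtain ⟨Cr, hCr, hrts⟩ := hRTS n D C₀ hC₀
  obtain ⟨Ct, hCt, htyp⟩ := hTYP n ((k₀ + 1) * D)
  have hl2 : 0 < Real.log 2 := Real.log_pos (by norm_num)
  have hl21 : Real.log 2 < 1 := by
    have := Real.log_two_lt_d9
    linarith only [hl2, this]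
  obtain ⟨lt, hlt⟩ : ∃ lt, lt = Real.log (2 * Ct) := ⟨_, rfl⟩
  have hlt0 : Real.log 2 ≤ lt := by
    rw [hlt]
    exact Real.log_le_log (by norm_num) (by linarith)
  have hlr0 : 0 ≤ Real.log Cr := Real.log_nonneg hCr
  refine ⟨Cc + Real.log Cr + 2 * lt + 4, by linarith, ?_⟩
  intro a L Ω Λ Ξ Z β _ p lam x T pos A B zx zl cz G wz wl Q S bb Bv R R' pp ep P₀ P₁ β' k θ lf ef
    cnt e₅ eo pB h F hreg hgr hwz hQ hef hcnt he₅ hpB hPB hSL hBv hRR' hR'P hP₀P₁ hP₁L hepp hC₂
    hOV hSup hθ hθ1 hlf hlfθ hlfpp
  have hp := F.leaf.isLaw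
  have hp0 := hp.nonneg
  obtain ⟨q', hq'⟩ : ∃ q', q' = dbl p lam := ⟨_, rfl⟩
  have hq'L : IsLaw q' := by
    rw [hq']
    exact ⟨dbl_nonneg hp0, by rw [(dbl_fst hp0).sum]; exact hp.sum_one⟩
  have hq'0 := hq'L.nonneg
  have hm2 : Marg q' p (fun v => v.2) := by
    rw [hq']
    exact dbl_snd hp0
  have dpos : ∀ v : Ω × Ω, 0 < q' v → 0 < p v.1 ∧ 0 < p v.2 ∧ lam v.1 = lam v.2 := by
    intro v hv
    rw [hq'] at hv
    exact (glue_pos_iff hp0 hp0 v).mp hv
  exact by
   obtain ⟨Ev, hEv⟩ : ∃ Ev : Ω × Ω → Prop, Ev = fun v => Bv (zx (x v.1)) (x v.2) := ⟨_, rfl⟩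
   obtain ⟨tt, htt⟩ : ∃ tt : Ω × Ω → ℕ, tt = fun v => L - bb (zx (x v.1)) (x v.2) := ⟨_, rfl⟩
   obtain ⟨b₀, hb₀⟩ : ∃ b₀, b₀ = law q' Ev True := ⟨_, rfl⟩
   have hb₀B : pB ≤ b₀ := by
     rw [hb₀, ← Pe_eq_law, hEv, hq']
     exact hPB
   have hb₀0 : 0 < b₀ := lt_of_lt_of_le hpB hb₀B
   -- an incidence
   obtain ⟨v₀, hv₀, hv₀B⟩ : ∃ v, 0 < q' v ∧ Ev v := by
     by_contra hcon
     push Not at hcon
     have : b₀ = 0 := by
       rw [hb₀, ← Pe_eq_law]
       unfold Pe
       refine Finset.sum_eq_zero fun v _ => ?_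
       split_ifs with h
       · exact le_antisymm (not_lt.1 fun h' => hcon v h' h) (hq'0 v)
       · rfl
     linarith only [hpB, hb₀B, this]
   have hfact : ∀ v, 0 < q' v → Ev v → bb (zx (x v.1)) (x v.2) ∈ S ∧
       bb (zx (x v.1)) (x v.2) + pp ≤ L + ep ∧
         Th D R (Mj a L pos zx cz G Q (bb (zx (x v.1)) (x v.2)) (zx (x v.1)) (x v.2)) ∧
         Ft D R' (Mj a L pos zx cz G Q (bb (zx (x v.1)) (x v.2)) (zx (x v.1)) (x v.2)) ∧
         0 < Mj a L pos zx cz G Q (bb (zx (x v.1)) (x v.2)) (zx (x v.1)) (x v.2) 0 ∧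
         |tc (bb (zx (x v.1)) (x v.2)) (hpl a cz G Q (zx (x v.1)) (zx (x v.2)) 0)
           (yb L pos (x v.2)) β'| ≤
           Mj a L pos zx cz G Q (bb (zx (x v.1)) (x v.2)) (zx (x v.1)) (x v.2) 0 / 2 ^ pp ∧
         Mj a L pos zx cz G Q (bb (zx (x v.1)) (x v.2)) (zx (x v.1)) (x v.2) 0 ≤
           2 ^ ep * |tc (bb (zx (x v.1)) (x v.2)) (hpl a cz G Q (zx (x v.1)) (zx (x v.2)) 0)
             (yb L pos (x v.2)) (β' + Finsupp.single k 1)| := by
     intro v hv hB
     rw [hEv] at hB
     rw [hq'] at hv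
     exact hBv v hv hB
   exact by
    have hbL : ∀ v, 0 < q' v → Ev v → bb (zx (x v.1)) (x v.2) ≤ L := fun v hv hB =>
      hSL _ (hfact v hv hB).1
    -- the shape
    obtain ⟨W, cd, hcd1, hcd2⟩ := hOV
    -- nonnegativity
    have hef0 : 0 ≤ ef := by
      have g1 : CH p (fun ω => bas pos (x ω)) (fun ω => zx (x ω)) ≤ n * (L * Real.log 2) := by
        refine (CH_cell_le hp (fun ω => bas pos (x ω)) (fun ω => zx (x ω)) (fun _ => L)
          (fun z i => cz z (some i)) fun ω _ i => F.cell ω (some i)).trans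
          (le_of_eq (Ex_const hp.sum_one _))
      linarith only [hef, g1]
    have hcnt0 : 0 ≤ cnt := (CH_nonneg (by rw [← hq']; exact hq'0) _ _).trans hcnt
    have he₅0 : 0 ≤ e₅ := (CH_nonneg hp0 _ _).trans he₅
    have heo0 : 0 ≤ eo := (CH_nonneg hp0 _ _).trans hcd2
    have hh0 : 0 ≤ h := by
      obtain ⟨s, hs1, hs2⟩ := hSup v₀.2 (dpos v₀ hv₀).2.1
      have h1 := hs2 v₀.2 (dpos v₀ hv₀).2.1 rfl
      have h2 : (1 : ℝ) ≤ s.card := by exact_mod_cast Finset.card_pos.2 ⟨_, h1⟩
      by_contra hcon
      push Not at hcon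
      have h3 := Real.exp_lt_exp.2 hcon
      rw [Real.exp_zero] at h3
      linarith only [hs1, h2, h3]
    have hlθ : 0 ≤ Real.log (1 / θ) := Real.log_nonneg (by rw [le_div_iff₀ hθ]; linarith only [hθ1])
    have hSc0 : (0 : ℝ) ≤ S.card := Nat.cast_nonneg _
    have hlS : 0 ≤ Real.log S.card := Real.log_natCast_nonneg _
    have hδ0 : 0 ≤ n * (a * Real.log 2) + ef + cnt + e₅ := by positivity
    have hnum0 : 0 ≤ (n * (a * Real.log 2) + ef + cnt + e₅ + 1 + S.card * (ef + eo)) / pB := by
      positivity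
    have hlast0 : 0 ≤ (S.card * ef / pB + 1) / lf := by positivity
    exact by
     obtain ⟨C₂, hC₂e⟩ : ∃ C₂, C₂ = Cc + Real.log Cr + 2 * lt + 4 := ⟨_, rfl⟩
     rw [← hC₂e] at hC₂ ⊢
     have hC₂0 : 0 ≤ C₂ := by rw [hC₂e]; linarith only [hCc, hl2, hl21, hlt0, hlr0]
     have hppL : ((pp : ℝ) - ep) ≤ L := by
       have h1 := (hfact v₀ hv₀ hv₀B).2.1
       have h2 : (pp : ℝ) ≤ L + ep := by
         have : pp ≤ L + ep := by omega
         exact_mod_cast this
       linarith only [h2]
     rcases le_or_gt lf (2 * lt) with hcase | hcase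
     · -- trivial case
       have g1 : (a + L + 1 : ℝ) ≤ C₂ * (a + L + 1) * ((S.card * ef / pB + 1) / lf) := by
         have k1 : 1 ≤ C₂ * ((S.card * ef / pB + 1) / lf) := by
           have k2 : 0 ≤ S.card * ef / pB := by positivity
           rw [mul_div_assoc', le_div_iff₀ hlf]
           nlinarith only [hCc, hlr0, hC₂e, hcase, k2, hl2, hl21, hlt0]
         have k3 : (0 : ℝ) ≤ a + L + 1 := by positivity
         nlinarith only [k1]
       have g2 : (pp - ep) * Real.log 2 ≤ (a + L + 1 : ℝ) := by
         have k1 : (0 : ℝ) ≤ L := Nat.cast_nonneg L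
         have k2 : (0 : ℝ) ≤ a := Nat.cast_nonneg a
         have k3 : (0 : ℝ) ≤ pp - ep := by
           have : (ep : ℝ) ≤ pp := by exact_mod_cast hepp
           linarith only [this]
         nlinarith only [hl21, hl2, hppL]
       have g3 : 0 ≤ C₂ * (1 + Real.log (1 / θ)) := by positivity
       linarith only [hh0, hlS, hnum0, g1, g2, g3]
     -- main case
     have hlf' : 0 < lf - lt := by linarith only [hl2, hlt0, hcase]
     obtain ⟨Sr, hSr1, hSr2⟩ := hrts a L R θ (by omega) hθ hθ1
     -- the derivative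
     exact by
      obtain ⟨jj, hjj⟩ : ∃ jj : Ω × Ω → ℕ, ∀ v, 0 < q' v → Ev v → 1 ≤ jj v ∧ jj v ≤ D ∧
          2 ^ (R * jj v) * Mj a L pos zx cz G Q (bb (zx (x v.1)) (x v.2)) (zx (x v.1)) (x v.2) 0 ≤
            Mj a L pos zx cz G Q (bb (zx (x v.1)) (x v.2)) (zx (x v.1)) (x v.2) (jj v) := by
        have hex : ∀ v : Ω × Ω, ∃ j, 0 < q' v → Ev v → 1 ≤ j ∧ j ≤ D ∧
            2 ^ (R * j) * Mj a L pos zx cz G Q (bb (zx (x v.1)) (x v.2)) (zx (x v.1)) (x v.2) 0 ≤
              Mj a L pos zx cz G Q (bb (zx (x v.1)) (x v.2)) (zx (x v.1)) (x v.2) j := by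
          intro v
          by_cases hv : 0 < q' v ∧ Ev v
          · obtain ⟨j, hj⟩ := (hfact v hv.1 hv.2).2.2.1
            exact ⟨j, fun _ _ => hj⟩
          · exact ⟨0, fun h1 h2 => absurd ⟨h1, h2⟩ hv⟩
        choose jj hjj using hex
        exact ⟨jj, hjj⟩
      -- the atypical points
      obtain ⟨At, hAt⟩ : ∃ At : Ω × Ω → Finset (Fin n → ℕ), At = fun v =>
          (bxc (tt v) (fun i => bas pos (x v.2) i / 2 ^ tt v)).filter fun u =>
            |MvPolynomial.eval (fun i => ((u i % 2 ^ L : ℕ) : ℝ) / 2 ^ L)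
              (hpl a cz G Q (zx (x v.1)) (zx (x v.2)) (jj v))| <
            θ * Mj a L pos zx cz G Q (bb (zx (x v.1)) (x v.2)) (zx (x v.1)) (x v.2) (jj v) :=
        ⟨_, rfl⟩
      -- fullness
      have hδ : n * (((a + L : ℕ) : ℝ) * Real.log 2) -
          CH q' (fun v => bas pos (x v.2)) (fun v => zx (x v.1)) ≤
            n * (a * Real.log 2) + ef + cnt + e₅ := by
        have g1 := j1_full hp lam x zx
        rw [← hq'] at g1
        have g2 : CH p (fun ω => bas pos (x ω)) (fun ω => zx (x ω)) ≤ CH p x (fun ω => zx (x ω)) :=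
          CH_mono_left hp0 fun ω ω' _ _ h => by
            simp only [Prod.mk.injEq] at h
            rw [h.1]
        have g3 := CH_le_add hq'0 (fun v => x v.2) (fun v => bas pos (x v.2)) (fun v => zx (x v.1))
        have g4 := CH_le_add hq'0 (fun v => x v.2) (fun v => pos (x v.2) none)
          (fun v => (bas pos (x v.2), zx (x v.1)))
        have g5 : CH q' (fun v => x v.2) (fun v => (pos (x v.2) none, (bas pos (x v.2), zx (x v.1)))) ≤
            CH q' (fun v => x v.2) (fun v => (pos (x v.2), wz (zx (x v.2)))) := by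
          refine CH_mono_cond hq'0 fun v v' hv hv' h => ?_
          simp only [Prod.mk.injEq] at h ⊢
          constructor
          · funext o
            cases o with
            | none => exact h.1
            | some i => exact congrFun h.2.1 i
          · obtain ⟨a1, a2, a3⟩ := dpos v hv
            obtain ⟨b1, b2, b3⟩ := dpos v' hv'
            rw [hwz _ a2, hwz _ b2, ← a3, ← b3, ← hwz _ a1, ← hwz _ b1, h.2.2]
        have g6 : CH q' (fun v => x v.2) (fun v => (pos (x v.2), wz (zx (x v.2)))) =
            CH p x (fun ω => (pos (x ω), wz (zx (x ω)))) :=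
          hm2.CH x (fun ω => (pos (x ω), wz (zx (x ω))))
        rw [← hq'] at hcnt
        have e1 : n * (((a + L : ℕ) : ℝ) * Real.log 2) = n * (a * Real.log 2) +
            n * (L * Real.log 2) := by
          push_cast
          ring
        linarith only [hef, he₅, hcnt, g1, g2, g3, g4, g5, g6, e1]
      -- the count
      exact by
       have hq : IsLaw (cond q' Ev True) :=
         ⟨cond_nonneg hq'0 Ev True, sum_cond q' Ev (by rw [← hb₀]; exact hb₀0.ne')⟩
       have hqpos : ∀ v, 0 < cond q' Ev True v → 0 < q' v ∧ Ev v := by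
         intro v hv
         have := (cond_pos_iff hq'0 Ev True v).mp hv
         exact ⟨this.1, by rw [this.2]; trivial⟩
       have hC : CH (cond q' Ev True) (fun v => bas pos (x v.2))
           (fun v => ((cz (zx (x v.2)), cd (zx (x v.2))),
             (zx (x v.1), tt v, fun i => bas pos (x v.2) i / 2 ^ tt v))) ≤
           Ex (cond q' Ev True) (fun v => n * (tt v * Real.log 2)) -
             ((pp - ep) * Real.log 2 - Cc) := by
         rw [htt]
         refine hcnt5 a L Ω Λ Ξ Z W p lam x T pos A B zx zl cz G Q cd (cond q' Ev True) bb R' pp ep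
           P₀ β' k F hreg hQ hcd1 hq ?_ hR'P hepp (by linarith only [hl2, hl21, hlt0, hlr0, hC₂, hC₂e]) ?_
         · intro v hv
           have := dpos v (hqpos v hv).1
           exact ⟨this.1, this.2.1⟩
         · intro v hv
           obtain ⟨h1, h2⟩ := hqpos v hv
           obtain ⟨f1, f2, f3, f4, f5, f6, f7⟩ := hfact v h1 h2
           exact ⟨hbL v h1 h2, f2, f4, f5, f6, f7⟩
       -- the core
       have hcore := j5_core hp hq'L hm2 Ev (by rw [← hb₀]; exact hb₀0) (n := n) (a := a) (L := L)
         (fun ω => bas pos (x ω)) (fun ω i => F.leaf.pos_lt ω (some i)) (fun ω => zx (x ω))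
         (fun z i => cz z (some i)) (fun ω i => F.cell ω (some i)) (fun v => zx (x v.1)) tt
         (S.image fun b => L - b) (by
           intro b hb
           rw [Finset.mem_image] at hb
           obtain ⟨b', _, rfl⟩ := hb
           exact Nat.sub_le _ _)
         (by
           intro v hv hB
           rw [htt]
           exact Finset.mem_image_of_mem _ (hfact v hv hB).1)
         (fun z => (cz z, cd z)) (fun ω => Nr L pos R (x ω)) (fun ω => Nr L pos P₁ (x ω))
         (fun ω => Yr L pos P₁ (x ω)) (by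
           intro ω ω' h
           funext i
           exact congrArg (· / 2 ^ (L - P₁)) (congrFun h i))
         wz (by
           intro v v' hv hv' h
           obtain ⟨a1, a2, a3⟩ := dpos v hv
           obtain ⟨b1, b2, b3⟩ := dpos v' hv'
           beta_reduce at h ⊢
           rw [hwz _ a2, hwz _ b2, ← a3, ← b3, ← hwz _ a1, ← hwz _ b1, h])
         (fun z u => Sr (Q z) u) At (δ := n * (a * Real.log 2) + ef + cnt + e₅) (ef := ef) (eo := eo)
         (g := (pp - ep) * Real.log 2 - Cc) (h := h) (c₁ := Real.log (Cr / θ))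
         (c₂ := ((a + L : ℕ) : ℝ) * Real.log 2) (lf := lf - lt) hδ hef hC (by
           -- own-visibility
           refine le_trans (le_of_eq ?_) hcd2
           refine CH_congr hp0 ?_ ?_ (fun _ _ _ _ h => h) (fun _ _ _ _ h => h)
           · intro ω ω' _ _ h
             simp only [Prod.mk.injEq] at h
             exact h.1.2
           · intro ω ω' _ _ h
             simp only [Prod.mk.injEq] at h ⊢
             refine ⟨?_, h.1⟩
             have key : ∀ u w : ℕ, u / 2 ^ (L - P₁) = w / 2 ^ (L - P₁) → u / 2 ^ L = w / 2 ^ L := by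
               intro u w h
               have e : (2 : ℕ) ^ L = 2 ^ (L - P₁) * 2 ^ P₁ := by
                 rw [← pow_add]
                 congr 1
                 omega
               rw [e, ← Nat.div_div_eq_div_mul, ← Nat.div_div_eq_div_mul, h]
             funext o
             rw [← F.cell, ← F.cell]
             cases o with
             | none => exact key _ _ h.2.2.1
             | some i => exact key _ _ (congrFun h.2.1 i))
         (by
           intro ω hω
           obtain ⟨s, hs1, hs2⟩ := hSup ω hω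
           refine ⟨s, hs1, fun ω' hω' h1 h2 h3 => hs2 ω' hω' ?_⟩
           exact Prod.ext h1 (Prod.ext h2 h3))
         (by
           -- the list
           intro v ω hv hB hω hlab hcell hnA
           obtain ⟨f1, f2, f3, f4, f5, f6, f7⟩ := hfact v hv hB
           obtain ⟨j1, j2, j3⟩ := hjj v hv hB
           have hb := hbL v hv hB
           have hlab' : zx (x ω) = zx (x v.2) := hlab
           have hMj : 0 < Mj a L pos zx cz G Q (bb (zx (x v.1)) (x v.2)) (zx (x v.1)) (x v.2)
               (jj v) := lt_of_lt_of_le (by positivity) j3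
           have hscb : scb L pos (bb (zx (x v.1)) (x v.2)) (x ω) =
               scb L pos (bb (zx (x v.1)) (x v.2)) (x v.2) := by
             refine scb_of_bas hb fun i => ?_
             have := hcell i
             rw [htt] at this
             exact this
           have hmem : yb L pos (x ω) ∈ cube (crb (bb (zx (x v.1)) (x v.2))
               (scb L pos (bb (zx (x v.1)) (x v.2)) (x v.2))) (1 / 2 ^ bb (zx (x v.1)) (x v.2)) := by
             rw [← hscb]
             exact JC.yb_mem hb _
           have hy : ∀ i, yb L pos (x ω) i = ((pos (x ω) (some i) % 2 ^ L : ℕ) : ℝ) / 2 ^ L :=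
             fun i => JC.yb_apply L (x ω) i
           refine hSr2 Z Q G cz (zx (x v.1)) (zx (x v.2)) (pos (x ω)) (yb L pos (x ω)) (jj v) _ _
             (hQ _).2 ?_ hy ?_ j1 j2 hMj ?_ ?_ j3
           · intro o
             rw [F.cell ω o, hlab']
           · have h1 := hgr ω hω
             rw [hlab'] at h1
             have e1 : rp (2 ^ L) (posS pos L) (x ω) none =
                 ((pos (x ω) none % 2 ^ L : ℕ) : ℝ) / 2 ^ L := by
               unfold rp posS
               push_cast
               rfl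
             rw [e1] at h1
             exact h1
           · by_contra hcon
             push Not at hcon
             refine hnA ?_
             rw [hAt, Finset.mem_filter, mem_bxc]
             refine ⟨hcell, ?_⟩
             have e1 : (fun i => ((bas pos (x ω) i % 2 ^ L : ℕ) : ℝ) / 2 ^ L) = yb L pos (x ω) := by
               funext i
               rw [hy]
               rfl
             rw [e1]
             exact hcon
           · exact SML.le_cs (by positivity) _ hmem)
         (fun z u => by
           rw [Real.exp_log (by positivity)]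
           exact hSr1 _ _)
         (Real.log_nonneg (by
           rw [le_div_iff₀ hθ]
           linarith only [hCr, hθ1]))
         (2 ^ (a + L)) (fun ω => lt_of_le_of_lt (Nat.div_le_self _ _) (F.leaf.pos_lt ω none))
         (by
           rw [← Real.log_pow, Real.exp_log (by positivity)]
           push_cast
           exact le_rfl)
         (by positivity)
         (by
           -- the atypical points are few
           intro v hv hB
           obtain ⟨f1, f2, f3, f4, f5, f6, f7⟩ := hfact v hv hB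
           have hb := hbL v hv hB
           have hG := (hreg v.2 (dpos v hv).2.1).deg
           have hk := JC.hpl_deg (a := a) (D := D) (k₀ := k₀) (cz := cz) (G := G) (Q := Q)
             (ζ₁ := zx (x v.1)) (ζ₂ := zx (x v.2)) hG (hQ _).2 (jj v)
           have htv : tt v = L - bb (zx (x v.1)) (x v.2) := by rw [htt]
           rw [hlt, htv]
           refine typ_card hCt htyp (hpl a cz G Q (zx (x v.1)) (zx (x v.2)) (jj v)) hk hb hθ hθ1 ?_ ?_
             (scb L pos (bb (zx (x v.1)) (x v.2)) (x v.2)) (fun i => cz (zx (x v.2)) (some i)) (At v) ?_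
           · push_cast
             exact hlfθ
           · refine hlfpp.trans (mul_le_mul_of_nonneg_right ?_ hl2.le)
             rw [Nat.cast_sub hb]
             have : ((bb (zx (x v.1)) (x v.2) + pp : ℕ) : ℝ) ≤ ((L + ep : ℕ) : ℝ) := by
               exact_mod_cast f2
             push_cast at this
             linarith only [this]
           · intro u hu
             rw [hAt, Finset.mem_filter, mem_bxc] at hu
             obtain ⟨u1, u2⟩ := hu
             have key : ∀ i, u i / 2 ^ L = cz (zx (x v.2)) (some i) := by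
               intro i
               have e : (2 : ℕ) ^ L = 2 ^ tt v * 2 ^ (bb (zx (x v.1)) (x v.2)) := by
                 rw [← pow_add]
                 congr 1
                 omega
               have e2 : bas pos (x v.2) i / 2 ^ L = cz (zx (x v.2)) (some i) := F.cell v.2 (some i)
               rw [← e2, e, ← Nat.div_div_eq_div_mul, ← Nat.div_div_eq_div_mul, u1 i]
             refine ⟨key, ?_, u2⟩
             intro i
             obtain ⟨b, hbe⟩ : ∃ b, b = bb (zx (x v.1)) (x v.2) := ⟨_, rfl⟩
             have u1i := u1 i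
             rw [htv] at u1i
             rw [← hbe] at hb u1i ⊢
             unfold scb posS
             obtain ⟨d, rfl⟩ := Nat.exists_eq_add_of_le hb
             rw [show b + d - b = d by omega] at u1i ⊢
             rw [pow_add, mul_comm (2 ^ b) (2 ^ d), Nat.mod_mul_right_div_self,
               Nat.mod_mul_right_div_self, u1i]
             rfl)
         hlf'
       exact by
        rw [← hb₀] at hcore
        -- numbers
        have hcard : (((S.image fun b => L - b).card : ℕ) : ℝ) ≤ S.card := by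
          exact_mod_cast Finset.card_image_le
        have hcard1 : (1 : ℝ) ≤ ((S.image fun b => L - b).card : ℕ) := by
          have : 0 < (S.image fun b => L - b).card :=
            Finset.card_pos.2 ⟨_, Finset.mem_image_of_mem _ (hfact v₀ hv₀ hv₀B).1⟩
          exact_mod_cast this
        obtain ⟨sc, hsc⟩ : ∃ sc : ℝ, sc = (((S.image fun b => L - b).card : ℕ) : ℝ) := ⟨_, rfl⟩
        rw [← hsc] at hcore hcard hcard1
        have n1 : (n * (a * Real.log 2) + ef + cnt + e₅ + Real.log 2) / b₀ +
            sc * (ef + eo) / b₀ ≤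
            (n * (a * Real.log 2) + ef + cnt + e₅ + 1 + S.card * (ef + eo)) / pB := by
          rw [← add_div]
          refine div_le_div₀ (by positivity) ?_ hpB hb₀B
          have : sc * (ef + eo) ≤ S.card * (ef + eo) :=
            mul_le_mul_of_nonneg_right hcard (by linarith only [hef0, heo0])
          linarith only [hl21, this]
        have n2 : Real.log sc ≤ Real.log S.card := Real.log_le_log (by linarith only [hl2, hl21, hcard1]) hcard
        have n3 : Real.log (Cr / θ) = Real.log Cr + Real.log (1 / θ) := by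
          rw [div_eq_mul_one_div, Real.log_mul (by linarith only [hCr, hl2, hl21]) (by positivity)]
        have n4 : (sc * ef / b₀ + Real.log 2) / (lf - lt) * (((a + L : ℕ) : ℝ) * Real.log 2) ≤
            2 * (a + L + 1) * ((S.card * ef / pB + 1) / lf) := by
          have k1 : sc * ef / b₀ + Real.log 2 ≤ S.card * ef / pB + 1 := by
            have : sc * ef / b₀ ≤ S.card * ef / pB :=
              div_le_div₀ (by positivity) (mul_le_mul_of_nonneg_right hcard hef0) hpB hb₀B
            linarith only [hl21, this]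
          have k2 : (sc * ef / b₀ + Real.log 2) / (lf - lt) ≤ 2 * ((S.card * ef / pB + 1) / lf) := by
            rw [mul_div_assoc', div_le_div_iff₀ hlf' hlf]
            have k3 : 0 ≤ S.card * ef / pB + 1 := by positivity
            have k4 : 0 ≤ sc * ef / b₀ + Real.log 2 := by positivity
            nlinarith only [hl2, hl21, hlf, k1, hcase, k3]
          have k5 : ((a + L : ℕ) : ℝ) * Real.log 2 ≤ a + L + 1 := by
            push_cast
            have : (0 : ℝ) ≤ a + L := by positivity
            nlinarith only [hl2, hl21]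
          have k6 : (0 : ℝ) ≤ ((a + L : ℕ) : ℝ) * Real.log 2 := by positivity
          calc (sc * ef / b₀ + Real.log 2) / (lf - lt) * (((a + L : ℕ) : ℝ) * Real.log 2) ≤
              2 * ((S.card * ef / pB + 1) / lf) * (((a + L : ℕ) : ℝ) * Real.log 2) :=
                mul_le_mul_of_nonneg_right k2 k6
            _ ≤ 2 * ((S.card * ef / pB + 1) / lf) * (a + L + 1) :=
                mul_le_mul_of_nonneg_left k5 (by positivity)
            _ = _ := by ring
        exact by
         have n5 : 2 * (a + L + 1) * ((S.card * ef / pB + 1) / lf) ≤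
             C₂ * (a + L + 1) * ((S.card * ef / pB + 1) / lf) := by
           refine mul_le_mul_of_nonneg_right ?_ hlast0
           refine mul_le_mul_of_nonneg_right ?_ (by positivity)
           rw [hC₂e]
           linarith only [hCc, hl2, hl21, hlt0, hlr0]
         have n6 : Cc + Real.log 2 + (Real.log Cr + Real.log (1 / θ)) ≤
             C₂ * (1 + Real.log (1 / θ)) := by
           have : 0 ≤ (C₂ - 1) * Real.log (1 / θ) := mul_nonneg (by rw [hC₂e]; linarith only [hCc, hl2, hl21, hlt0, hlr0]) hlθ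
           have e : C₂ * (1 + Real.log (1 / θ)) = C₂ + Real.log (1 / θ) +
               (C₂ - 1) * Real.log (1 / θ) := by ring
           rw [e]
           have : Cc + Real.log 2 + Real.log Cr ≤ C₂ := by
             rw [hC₂e]
             linarith only [hl2, hl21, hlt0]
           linarith
         rw [n3] at hcore
         linarith only [hcore, n1, n2, n4, n5, n6]

end Pool.KJ
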